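import Mathlib

open MeasureTheory ProbabilityTheory Set

namespace Pool.Agent.Lib.MP_ba6fcf_pr

section iid

variable {T : Type*} [MeasurableSpace T]

/-- The law of an i.i.d. family with single-site law `ν` indexed by `ι`. -/
noncomputable abbrev iid (ν : Measure T) (ι : Type*) : Measure (ι → T) :=
  Measure.infinitePi (fun _ : ι => ν)

theorem iid_sum {α β : Type*} (ν : Measure T) [IsProbabilityMeasure ν] :
    ((iid ν α).prod (iid ν β)).map (fun p => (Sum.elim p.1 p.2 : α ⊕ β → T)) =
      iid ν (α ⊕ β) := by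
  classical
  have hmeas : Measurable (fun p : (α → T) × (β → T) => (Sum.elim p.1 p.2 : α ⊕ β → T)) := by
    rw [measurable_pi_iff]
    rintro (a | b)
    · exact (measurable_pi_apply a).comp measurable_fst
    · exact (measurable_pi_apply b).comp measurable_snd
  refine Measure.eq_infinitePi _ fun s t ht => ?_
  rw [Measure.map_apply hmeas (.pi s.countable_toSet fun _ _ => ht _)]
  have hpre : (fun p : (α → T) × (β → T) => (Sum.elim p.1 p.2 : α ⊕ β → T)) ⁻¹'
      ((s : Set (α ⊕ β)).pi t) =
      ((s.toLeft : Set α).pi (fun a => t (Sum.inl a))) ×ˢ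
        ((s.toRight : Set β).pi (fun b => t (Sum.inr b))) := by
    ext ⟨p, q⟩
    simp [Set.mem_pi]
  rw [hpre, Measure.prod_prod, Measure.infinitePi_pi _ (fun i _ => ht _),
    Measure.infinitePi_pi _ (fun i _ => ht _)]
  conv_rhs => rw [← Finset.toLeft_disjSum_toRight (u := s)]
  rw [Finset.prod_disjSum]

theorem pair {α β ι : Type*} (ν : Measure T) [IsProbabilityMeasure ν] (f : α → ι) (g : β → ι)
    (h : Function.Injective (Sum.elim f g)) :
    MeasurePreserving (fun (ω : ι → T) => ((fun a => ω (f a)), (fun b => ω (g b))))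
      (iid ν ι) ((iid ν α).prod (iid ν β)) := by
  have hm1 : Measurable (fun p : (α → T) × (β → T) => (Sum.elim p.1 p.2 : α ⊕ β → T)) := by
    rw [measurable_pi_iff]
    rintro (a | b)
    · exact (measurable_pi_apply a).comp measurable_fst
    · exact (measurable_pi_apply b).comp measurable_snd
  have hm2 : Measurable (fun w : α ⊕ β → T => ((fun a => w (Sum.inl a)), (fun b => w (Sum.inr b)))) :=
    by fun_prop
  have hm3 : Measurable (fun (ω : ι → T) (i : α ⊕ β) => ω (Sum.elim f g i)) := by fun_prop
  refine ⟨by fun_prop, ?_⟩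
  have e1 : (iid ν ι).map (fun ω (i : α ⊕ β) => ω (Sum.elim f g i)) = iid ν (α ⊕ β) :=
    Measure.map_infinitePi_infinitePi_of_inj h
  have e2 : (iid ν (α ⊕ β)).map
      (fun w : α ⊕ β → T => ((fun a => w (Sum.inl a)), (fun b => w (Sum.inr b)))) =
      (iid ν α).prod (iid ν β) := by
    rw [← iid_sum, Measure.map_map hm2 hm1]
    exact Measure.map_id
  rw [← e2, ← e1, Measure.map_map hm2 hm3]
  rfl

theorem single {α ι : Type*} (ν : Measure T) [IsProbabilityMeasure ν] (f : α → ι)
    (h : Function.Injective f) :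
    MeasurePreserving (fun (ω : ι → T) => (fun a => ω (f a))) (iid ν ι) (iid ν α) :=
  ⟨by fun_prop, Measure.map_infinitePi_infinitePi_of_inj h⟩

end iid

end Pool.Agent.Lib.MP_ba6fcf_pr
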