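import Mathlib

open MeasureTheory ProbabilityTheory Set

namespace Pool.Agent.Lib.MP_ba6fcf_pr

/-- The sign of a bit. -/
def sg (b : Bool) : ℝ := if b then -1 else 1

@[simp] lemma sg_true : sg true = -1 := rfl
@[simp] lemma sg_false : sg false = 1 := rfl

lemma sg_xor (a b : Bool) : sg (a ^^ b) = sg a * sg b := by
  cases a <;> cases b <;> simp [sg]

lemma sg_mul_self (a : Bool) : sg a * sg a = 1 := by
  cases a <;> simp [sg]

lemma abs_sg (a : Bool) : |sg a| = 1 := by
  cases a <;> simp [sg]

lemma measurable_sg : Measurable sg := measurable_of_countable _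

/-- indicator of a bit value -/
def ind (c b : Bool) : ℝ := if b = c then 1 else 0

lemma measurable_ind (c : Bool) : Measurable (ind c) := measurable_of_countable _

lemma ind_nonneg (c b : Bool) : 0 ≤ ind c b := by
  unfold ind; split_ifs <;> norm_num

lemma ind_le_one (c b : Bool) : ind c b ≤ 1 := by
  unfold ind; split_ifs <;> norm_num

lemma chsh_arith (a0 a1 b0 b1 : ℝ) (h0 : |a0| ≤ 1 / 2) (h1 : |a1| ≤ 1 / 2) (k0 : |b0| ≤ 1 / 2)
    (k1 : |b1| ≤ 1 / 2) : a0 * (b0 + b1) + a1 * (b0 - b1) ≤ 1 / 2 := by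
  rw [abs_le] at h0 h1 k0 k1
  rcases le_total 0 (b0 + b1) with hp | hp <;> rcases le_total 0 (b0 - b1) with hq | hq
  · nlinarith [mul_nonneg (sub_nonneg.2 h0.2) hp, mul_nonneg (sub_nonneg.2 h1.2) hq]
  · nlinarith [mul_nonneg (sub_nonneg.2 h0.2) hp, mul_nonneg_of_nonpos_of_nonpos
      (sub_nonpos.2 h1.1) hq]
  · nlinarith [mul_nonneg_of_nonpos_of_nonpos (sub_nonpos.2 h0.1) hp,
      mul_nonneg (sub_nonneg.2 h1.2) hq]
  · nlinarith [mul_nonneg_of_nonpos_of_nonpos (sub_nonpos.2 h0.1) hp,
      mul_nonneg_of_nonpos_of_nonpos (sub_nonpos.2 h1.1) hq]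

lemma abs_integral_ind_le {Λ : Type*} [MeasurableSpace Λ] (lam : Measure Λ)
    [IsProbabilityMeasure lam] (F : Λ → ℝ) (h : Λ → Bool) (hF : Measurable F)
    (hh : Measurable h) (hF1 : ∀ l, |F l| ≤ 1) (c : Bool)
    (hc : lam {l | h l = c} ≤ 1 / 2) :
    |∫ l, F l * ind c (h l) ∂lam| ≤ 1 / 2 := by
  have hset : MeasurableSet {l | h l = c} := hh (measurableSet_singleton c)
  calc |∫ l, F l * ind c (h l) ∂lam| ≤ ∫ l, |F l * ind c (h l)| ∂lam := abs_integral_le_integral_abs
    _ ≤ ∫ l, ({l | h l = c} : Set Λ).indicator (fun _ => (1 : ℝ)) l ∂lam := by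
        refine integral_mono_of_nonneg (ae_of_all _ fun l => abs_nonneg _) ?_
          (ae_of_all _ fun l => ?_)
        · exact (integrable_const 1).indicator hset
        · simp only [abs_mul]
          by_cases hl : h l = c
          · simp [ind, hl, hF1 l]
          · simp [ind, hl]
    _ = (lam {l | h l = c}).toReal := by
        exact integral_indicator_one hset
    _ ≤ 1 / 2 := by
        have := ENNReal.toReal_mono (by norm_num) hc
        simpa using this

/-- The CHSH inequality for a local hidden variable model: `σ` is the law of the hidden variable,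
`lam` and `rho` the laws of the local randomness of the two parties. -/
theorem chsh {Ξ Λ Γ : Type*} [MeasurableSpace Ξ] [MeasurableSpace Λ] [MeasurableSpace Γ]
    (σ : Measure Ξ) (lam : Measure Λ) (rho : Measure Γ) [IsProbabilityMeasure σ]
    [IsProbabilityMeasure lam] [IsProbabilityMeasure rho]
    (F : Ξ → Λ → ℝ) (G : Ξ → Γ → ℝ) (h : Λ → Bool) (k : Γ → Bool)
    (hF : Measurable (Function.uncurry F)) (hG : Measurable (Function.uncurry G))
    (hh : Measurable h) (hk : Measurable k)
    (hF1 : ∀ s l, |F s l| ≤ 1) (hG1 : ∀ s r, |G s r| ≤ 1)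
    (hhc : ∀ c, lam {l | h l = c} ≤ 1 / 2) (hkc : ∀ c, rho {r | k r = c} ≤ 1 / 2) :
    ∫ z : Ξ × (Λ × Γ), F z.1 z.2.1 * G z.1 z.2.2 * sg (h z.2.1 && k z.2.2)
      ∂(σ.prod (lam.prod rho)) ≤ 1 / 2 := by
  have hmeasF : Measurable (fun z : Ξ × (Λ × Γ) => F z.1 z.2.1) :=
    hF.comp (measurable_fst.prodMk (measurable_fst.comp measurable_snd))
  have hmeasG : Measurable (fun z : Ξ × (Λ × Γ) => G z.1 z.2.2) :=
    hG.comp (measurable_fst.prodMk (measurable_snd.comp measurable_snd))
  have hmeasS : Measurable (fun z : Ξ × (Λ × Γ) => sg (h z.2.1 && k z.2.2)) := by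
    have : Measurable (fun z : Ξ × (Λ × Γ) => (h z.2.1, k z.2.2)) :=
      (hh.comp (measurable_fst.comp measurable_snd)).prodMk
        (hk.comp (measurable_snd.comp measurable_snd))
    exact (measurable_of_countable (fun q : Bool × Bool => sg (q.1 && q.2))).comp this
  have hint : Integrable (fun z : Ξ × (Λ × Γ) =>
      F z.1 z.2.1 * G z.1 z.2.2 * sg (h z.2.1 && k z.2.2)) (σ.prod (lam.prod rho)) := by
    refine Integrable.of_bound ((hmeasF.mul hmeasG).mul hmeasS).aestronglyMeasurable 1
      (ae_of_all _ fun z => ?_)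
    rw [Real.norm_eq_abs, abs_mul, abs_mul, abs_sg, mul_one]
    exact mul_le_one₀ (hF1 _ _) (abs_nonneg _) (hG1 _ _)
  rw [integral_prod _ hint]
  have hmain : ∀ s, ∫ y : Λ × Γ, F s y.1 * G s y.2 * sg (h y.1 && k y.2) ∂(lam.prod rho)
      ≤ 1 / 2 := by
    intro s
    have mF : Measurable (F s) := hF.comp (measurable_const.prodMk measurable_id)
    have mG : Measurable (G s) := hG.comp (measurable_const.prodMk measurable_id)
    have mI : ∀ c, Measurable (fun l => ind c (h l)) := fun c => (measurable_ind c).comp hh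
    have mJ : ∀ c, Measurable (fun r => ind c (k r)) := fun c => (measurable_ind c).comp hk
    have bI : ∀ c b, |ind c b| ≤ 1 := fun c b => by
      rw [abs_of_nonneg (ind_nonneg c b)]; exact ind_le_one c b
    have hA : ∀ c, |∫ l, F s l * ind c (h l) ∂lam| ≤ 1 / 2 := fun c =>
      abs_integral_ind_le lam (F s) h mF hh (hF1 s) c (hhc c)
    have hB : ∀ c, |∫ r, G s r * ind c (k r) ∂rho| ≤ 1 / 2 := fun c =>
      abs_integral_ind_le rho (G s) k mG hk (hG1 s) c (hkc c)
    have iF : ∀ c, Integrable (fun l => F s l * ind c (h l)) lam := fun c =>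
      Integrable.of_bound (mF.mul (mI c)).aestronglyMeasurable 1 (ae_of_all _ fun l => by
        rw [Real.norm_eq_abs, abs_mul]
        exact mul_le_one₀ (hF1 _ _) (abs_nonneg _) (bI _ _))
    have iG : ∀ c, Integrable (fun r => G s r * ind c (k r)) rho := fun c =>
      Integrable.of_bound (mG.mul (mJ c)).aestronglyMeasurable 1 (ae_of_all _ fun l => by
        rw [Real.norm_eq_abs, abs_mul]
        exact mul_le_one₀ (hG1 _ _) (abs_nonneg _) (bI _ _))
    have hsplit : ∀ y : Λ × Γ, F s y.1 * G s y.2 * sg (h y.1 && k y.2) =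
        (F s y.1 * ind false (h y.1)) * (G s y.2 * ind false (k y.2) + G s y.2 * ind true (k y.2)) +
        (F s y.1 * ind true (h y.1)) *
          (G s y.2 * ind false (k y.2) - G s y.2 * ind true (k y.2)) := by
      intro y
      cases h y.1 <;> cases k y.2 <;> simp [ind, sg]
    simp_rw [hsplit]
    have i1 : Integrable (fun y : Λ × Γ => (F s y.1 * ind false (h y.1)) *
        (G s y.2 * ind false (k y.2) + G s y.2 * ind true (k y.2))) (lam.prod rho) :=
      (iF false).mul_prod ((iG false).add (iG true))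
    have i2 : Integrable (fun y : Λ × Γ => (F s y.1 * ind true (h y.1)) *
        (G s y.2 * ind false (k y.2) - G s y.2 * ind true (k y.2))) (lam.prod rho) :=
      (iF true).mul_prod ((iG false).sub (iG true))
    rw [integral_add i1 i2,
      integral_prod_mul (μ := lam) (ν := rho) (fun l => F s l * ind false (h l))
        (fun r => G s r * ind false (k r) + G s r * ind true (k r)),
      integral_prod_mul (μ := lam) (ν := rho) (fun l => F s l * ind true (h l))
        (fun r => G s r * ind false (k r) - G s r * ind true (k r)),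
      integral_add (iG false) (iG true), integral_sub (iG false) (iG true)]
    exact chsh_arith _ _ _ _ (hA false) (hA true) (hB false) (hB true)
  calc _ ≤ ∫ _s, (1 / 2 : ℝ) ∂σ := by
        refine integral_mono hint.integral_prod_left (integrable_const _) hmain
    _ = 1 / 2 := by simp

end Pool.Agent.Lib.MP_ba6fcf_pr
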