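import Mathlib

open MeasureTheory ProbabilityTheory
open scoped ENNReal

namespace Pool.Agent.Lib.MP_ba6fcf_pr

/-- The shift on two-sided sequences: `(shift x)_i = x_{i+1}`. -/
def shift {S : Type*} (x : ℤ → S) : ℤ → S := fun i => x (i + 1)

/-- The law `μ` of a process `(X_i)_{i ∈ ℤ}` is stationary: it is invariant under the shift. -/
def IsStationary {S : Type*} [MeasurableSpace S] (μ : Measure (ℤ → S)) : Prop :=
  μ.map shift = μ

/-- The process with law `μ` is `k`-dependent: `(X_i)_{i ∈ A}` and `(X_j)_{j ∈ B}` are independent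
whenever `|i - j| > k` for all `i ∈ A`, `j ∈ B`. -/
def IsKDependent {S : Type*} [MeasurableSpace S] (k : ℕ) (μ : Measure (ℤ → S)) : Prop :=
  ∀ A B : Set ℤ, (∀ i ∈ A, ∀ j ∈ B, (k : ℤ) < |i - j|) →
    IndepFun (fun (x : ℤ → S) (i : A) => x i) (fun (x : ℤ → S) (j : B) => x j) μ

/-- The coding radius of the map `φ` at `y`: the least natural number `r` such that
`φ(y')_0 = φ(y)_0` for every `y'` agreeing with `y` on `[-r, r]` (and `∞` if there is none). -/
noncomputable def codingRadius {T S : Type*} (φ : (ℤ → T) → (ℤ → S)) (y : ℤ → T) : ℝ≥0∞ :=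
  ⨅ (r : ℕ) (_ : ∀ y' : ℤ → T, (∀ i : ℤ, |i| ≤ r → y' i = y i) → φ y' 0 = φ y 0), (r : ℝ≥0∞)

end Pool.Agent.Lib.MP_ba6fcf_pr
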