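import Mathlib
import Pool.Agent.Lib.MP_ba6fcf_pr.Defs
import Pool.Agent.Lib.MP_ba6fcf_pr.Iid
import Pool.Agent.Lib.MP_ba6fcf_pr.Chsh

open MeasureTheory ProbabilityTheory Set
open scoped ENNReal

namespace Pool.Agent.Lib.MP_ba6fcf_pr

/-- Translation by `i`. -/
def tr {S : Type*} (i : ℤ) (x : ℤ → S) : ℤ → S := fun k => x (k + i)

lemma tr_zero {S : Type*} (x : ℤ → S) : tr 0 x = x := by
  funext k; simp [tr]

lemma tr_tr {S : Type*} (i j : ℤ) (x : ℤ → S) : tr i (tr j x) = tr (i + j) x := by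
  funext k; simp [tr, add_assoc]

lemma shift_eq_tr {S : Type*} (x : ℤ → S) : shift x = tr 1 x := rfl

section

variable {T S : Type*} [MeasurableSpace T] [MeasurableSpace S]

lemma tr_preserving (ν : Measure T) [IsProbabilityMeasure ν] (i : ℤ) :
    MeasurePreserving (tr i : (ℤ → T) → (ℤ → T)) (iid ν ℤ) (iid ν ℤ) :=
  single ν (fun k => k + i) (add_left_injective i)

lemma equivariant_all (ν : Measure T) [IsProbabilityMeasure ν] (φ : (ℤ → T) → (ℤ → S))
    (heq : ∀ᵐ y ∂(iid ν ℤ), φ (shift y) = shift (φ y)) (i : ℤ) :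
    ∀ᵐ y ∂(iid ν ℤ), φ (tr i y) = tr i (φ y) := by
  induction i using Int.induction_on with
  | zero => exact ae_of_all _ fun y => by rw [tr_zero, tr_zero]
  | succ i ih =>
    have h1 := (tr_preserving ν (i : ℤ)).quasiMeasurePreserving.ae heq
    filter_upwards [ih, h1] with y hy hy1
    rw [shift_eq_tr, shift_eq_tr, tr_tr, hy, tr_tr] at hy1
    rw [add_comm, hy1]
  | pred i ih =>
    have h1 := (tr_preserving ν (-(i : ℤ) - 1)).quasiMeasurePreserving.ae heq
    filter_upwards [ih, h1] with y hy hy1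
    rw [shift_eq_tr, shift_eq_tr, tr_tr] at hy1
    have e : (1 : ℤ) + (-(i : ℤ) - 1) = -(i : ℤ) := by ring
    rw [e, hy] at hy1
    funext k
    have := congrFun hy1 (k - 1)
    simp only [tr, sub_add_cancel] at this
    rw [← this]
    simp only [tr]
    congr 1
    ring

open scoped Classical in
/-- `spl K z w` is `z` on `K` and `w` off `K`. -/
noncomputable def spl (K : Set ℤ) (z w : ℤ → T) : ℤ → T := fun k => if k ∈ K then z k else w k

lemma measurable_spl (K : Set ℤ) :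
    Measurable (fun p : (ℤ → T) × (ℤ → T) => spl K p.1 p.2) := by
  rw [measurable_pi_iff]
  intro k
  unfold spl
  by_cases hk : k ∈ K
  · simp only [hk, if_true]; fun_prop
  · simp only [hk, if_false]; fun_prop

/-- The event that resampling off `K` changes the image at the origin. -/
def D (φ : (ℤ → T) → (ℤ → S)) (K : Set ℤ) : Set ((ℤ → T) × (ℤ → T)) :=
  {p | φ p.1 0 ≠ φ (spl K p.1 p.2) 0}

lemma measurableSet_D [MeasurableEq S] {φ : (ℤ → T) → (ℤ → S)} (hφ : Measurable φ) (K : Set ℤ) :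
    MeasurableSet (D φ K) := by
  have h1 : Measurable (fun p : (ℤ → T) × (ℤ → T) => φ p.1 0) :=
    (measurable_pi_apply 0).comp (hφ.comp measurable_fst)
  have h2 : Measurable (fun p : (ℤ → T) × (ℤ → T) => φ (spl K p.1 p.2) 0) :=
    (measurable_pi_apply 0).comp (hφ.comp (measurable_spl K))
  exact (measurableSet_eq_fun h1 h2).compl

/-- Probability of `D`. -/
noncomputable def d (ν : Measure T) (φ : (ℤ → T) → (ℤ → S)) (K : Set ℤ) : ℝ≥0∞ :=
  ((iid ν ℤ).prod (iid ν ℤ)) (D φ K)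

lemma codingRadius_lt_of_mem {φ : (ℤ → T) → (ℤ → S)} {K : Set ℤ} {n : ℕ}
    (hK : ∀ k : ℤ, |k| ≤ n → k ∈ K) {z w : ℤ → T} (h : (z, w) ∈ D φ K)
    {r : ℕ} (hr : ∀ y' : ℤ → T, (∀ i : ℤ, |i| ≤ r → y' i = z i) → φ y' 0 = φ z 0) : n < r := by
  by_contra hlt
  push Not at hlt
  apply h
  symm
  apply hr
  intro i hi
  have : i ∈ K := hK i (hi.trans (by exact_mod_cast hlt))
  simp [spl, this]

lemma tsum_indicator_le (φ : (ℤ → T) → (ℤ → S)) (K : ℕ → Set ℤ)
    (hK : ∀ n : ℕ, ∀ k : ℤ, |k| ≤ n → k ∈ K n) (z w : ℤ → T) :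
    ∑' n, (D φ (K n)).indicator (fun _ => (1 : ℝ≥0∞)) (z, w) ≤ codingRadius φ z := by
  unfold codingRadius
  refine le_iInf fun r => le_iInf fun hr => ?_
  have hz : ∀ n, n ∉ Finset.range r →
      (D φ (K n)).indicator (fun _ => (1 : ℝ≥0∞)) (z, w) = 0 := by
    intro n hn
    rw [Set.indicator_of_notMem]
    intro hmem
    exact hn (Finset.mem_range.2 (codingRadius_lt_of_mem (hK n) hmem hr))
  rw [tsum_eq_sum hz]
  calc ∑ n ∈ Finset.range r, (D φ (K n)).indicator (fun _ => (1 : ℝ≥0∞)) (z, w)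
      ≤ ∑ n ∈ Finset.range r, 1 := Finset.sum_le_sum fun n _ =>
        Set.indicator_le_self' (fun _ _ => zero_le) _
    _ = r := by simp

theorem tsum_d_le [MeasurableEq S] (ν : Measure T) [IsProbabilityMeasure ν]
    {φ : (ℤ → T) → (ℤ → S)} (hφ : Measurable φ) (K : ℕ → Set ℤ)
    (hK : ∀ n : ℕ, ∀ k : ℤ, |k| ≤ n → k ∈ K n) :
    ∑' n, d ν φ (K n) ≤ ∫⁻ y, codingRadius φ y ∂(iid ν ℤ) := by
  have hm : ∀ n, Measurable ((D φ (K n)).indicator (fun _ => (1 : ℝ≥0∞))) := fun n =>
    measurable_const.indicator (measurableSet_D hφ _)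
  calc ∑' n, d ν φ (K n)
      = ∑' n, ∫⁻ p, (D φ (K n)).indicator (fun _ => (1 : ℝ≥0∞)) p
          ∂((iid ν ℤ).prod (iid ν ℤ)) := by
        congr 1; funext n
        rw [lintegral_indicator (measurableSet_D hφ _)]
        simp [d]
    _ = ∫⁻ p, ∑' n, (D φ (K n)).indicator (fun _ => (1 : ℝ≥0∞)) p
          ∂((iid ν ℤ).prod (iid ν ℤ)) := (lintegral_tsum fun n => (hm n).aemeasurable).symm
    _ = ∫⁻ z, ∫⁻ w, ∑' n, (D φ (K n)).indicator (fun _ => (1 : ℝ≥0∞)) (z, w) ∂(iid ν ℤ)
          ∂(iid ν ℤ) := lintegral_prod _ (Measurable.tsum hm).aemeasurable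
    _ ≤ ∫⁻ z, ∫⁻ _w, codingRadius φ z ∂(iid ν ℤ) ∂(iid ν ℤ) :=
        lintegral_mono fun z => lintegral_mono fun w => tsum_indicator_le φ K hK z w
    _ = ∫⁻ y, codingRadius φ y ∂(iid ν ℤ) := by simp

/-- Reading the colored array along a coloring. -/
def rd (c : ℤ → Fin 3) (ω : Fin 3 × ℤ → T) : ℤ → T := fun k => ω (c k, k)

lemma rd_preserving (ν : Measure T) [IsProbabilityMeasure ν] (c : ℤ → Fin 3) :
    MeasurePreserving (rd c : (Fin 3 × ℤ → T) → (ℤ → T)) (iid ν (Fin 3 × ℤ)) (iid ν ℤ) :=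
  single ν (fun k => (c k, k)) (fun _ _ h => (Prod.ext_iff.1 h).2)

theorem measure_ne_eq_d [MeasurableEq S] (ν : Measure T) [IsProbabilityMeasure ν]
    {φ : (ℤ → T) → (ℤ → S)} (hφ : Measurable φ)
    (heq : ∀ᵐ y ∂(iid ν ℤ), φ (shift y) = shift (φ y)) (c c' : ℤ → Fin 3) (i : ℤ) :
    (iid ν (Fin 3 × ℤ)) {ω | φ (rd c ω) i ≠ φ (rd c' ω) i} =
      d ν φ {k | c (k + i) = c' (k + i)} := by
  classical
  set K : Set ℤ := {k | c (k + i) = c' (k + i)} with hKdef
  let e : ℤ → Fin 3 := fun k => if c (k + i) = c' (k + i) then c (k + i) + 1 else c' (k + i)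
  have he : ∀ k, e k ≠ c (k + i) := by
    intro k
    by_cases h : c (k + i) = c' (k + i)
    · simp only [e, if_pos h]
      rw [h]
      generalize c' (k + i) = q
      revert q; decide
    · simp only [e, if_neg h]
      exact fun hh => h hh.symm
  have hinj : Function.Injective (Sum.elim (fun k : ℤ => (c (k + i), k + i))
      (fun k : ℤ => (e k, k + i))) := by
    rintro (a | a) (b | b) h
    · simp only [Sum.elim_inl, Prod.mk.injEq] at h
      rw [add_right_cancel h.2]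
    · simp only [Sum.elim_inl, Sum.elim_inr, Prod.mk.injEq] at h
      have hab : a = b := add_right_cancel h.2
      subst hab
      exact absurd h.1.symm (he a)
    · simp only [Sum.elim_inl, Sum.elim_inr, Prod.mk.injEq] at h
      have hab : a = b := add_right_cancel h.2
      subst hab
      exact absurd h.1 (he a)
    · simp only [Sum.elim_inr, Prod.mk.injEq] at h
      rw [add_right_cancel h.2]
  have hp := pair ν (fun k : ℤ => (c (k + i), k + i)) (fun k : ℤ => (e k, k + i)) hinj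
  unfold d
  rw [← hp.measure_preimage (measurableSet_D hφ K).nullMeasurableSet]
  refine measure_congr ?_
  have h1 := (rd_preserving ν c).quasiMeasurePreserving.ae (equivariant_all ν φ heq i)
  have h2 := (rd_preserving ν c').quasiMeasurePreserving.ae (equivariant_all ν φ heq i)
  filter_upwards [h1, h2] with ω hω1 hω2
  have e1 : φ (rd c ω) i = φ (fun k => ω (c (k + i), k + i)) 0 := by
    have := congrFun hω1 0
    simp only [tr, zero_add] at this
    rw [← this]; rfl
  have e2 : φ (rd c' ω) i = φ (spl K (fun k => ω (c (k + i), k + i))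
      (fun k => ω (e k, k + i))) 0 := by
    have := congrFun hω2 0
    simp only [tr, zero_add] at this
    rw [← this]
    congr 1
    funext k
    by_cases h : c (k + i) = c' (k + i)
    · have hk : k ∈ K := h
      simp [spl, hk, tr, rd, h]
    · have hk : k ∉ K := h
      simp [spl, hk, tr, rd, e, h]
  change (φ (rd c ω) i ≠ φ (rd c' ω) i) = (φ (fun k => ω (c (k + i), k + i)) 0 ≠
    φ (spl K (fun k => ω (c (k + i), k + i)) (fun k => ω (e k, k + i))) 0)
  rw [e1, e2]

end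

end Pool.Agent.Lib.MP_ba6fcf_pr
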