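import Mathlib
import Pool.Agent.Lib.MP_ba6fcf_pr.Coding

open MeasureTheory ProbabilityTheory Set
open scoped ENNReal

namespace Pool.Agent.Lib.MP_ba6fcf_pr

section

variable {T S : Type*} [MeasurableSpace T] [MeasurableSpace S]

/-- Left / middle / right coloring. -/
def c0 (m : ℕ) (k : ℤ) : Fin 3 := if k < -(m : ℤ) then 0 else if k ≤ m then 1 else 2

/-- Middle color on `[-m, m]`, color `q` elsewhere. -/
def cq (m : ℕ) (q : Fin 3) (k : ℤ) : Fin 3 := if -(m : ℤ) ≤ k ∧ k ≤ m then 1 else q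

/-- The map to three independent sequences. -/
def three (ω : Fin 3 × ℤ → T) : (ℤ → T) × ((ℤ → T) × (ℤ → T)) :=
  (fun k => ω (1, k), (fun k => ω (0, k), fun k => ω (2, k)))

lemma three_preserving (ν : Measure T) [IsProbabilityMeasure ν] :
    MeasurePreserving (three : (Fin 3 × ℤ → T) → _) (iid ν (Fin 3 × ℤ))
      ((iid ν ℤ).prod ((iid ν ℤ).prod (iid ν ℤ))) := by
  have h1 := pair (ι := Fin 3 × ℤ) ν (fun k : ℤ => ((1 : Fin 3), k))
    (fun p : Bool × ℤ => ((if p.1 then 2 else 0 : Fin 3), p.2)) (by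
      rintro (a | ⟨a, a'⟩) (b | ⟨b, b'⟩) h
      · simpa using h
      · cases b <;> simp at h
      · cases a <;> simp at h
      · cases a <;> cases b <;> simp_all)
  have h2 := pair (ι := Bool × ℤ) ν (fun k : ℤ => (false, k)) (fun k : ℤ => (true, k)) (by
      rintro (a | a) (b | b) h <;> simp_all)
  exact ((MeasurePreserving.id (iid ν ℤ)).prod h2).comp h1

lemma measurable_rd (c : ℤ → Fin 3) : Measurable (rd c : (Fin 3 × ℤ → T) → (ℤ → T)) := by
  unfold rd; fun_prop

variable [MeasurableEq S]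

lemma union_bound (ν : Measure T) [IsProbabilityMeasure ν]
    {φ : (ℤ → T) → (ℤ → S)} (hφ : Measurable φ)
    (heq : ∀ᵐ y ∂(iid ν ℤ), φ (shift y) = shift (φ y)) (c c' : ℤ → Fin 3)
    {β : Type*} (f : (ℤ → S) → β) (pos : ℕ → ℤ)
    (hf : ∀ x x' : ℤ → S, (∀ j, x (pos j) = x' (pos j)) → f x = f x') (K : ℕ → Set ℤ)
    (hK : ∀ j, {k | c (k + pos j) = c' (k + pos j)} = K j) :
    (iid ν (Fin 3 × ℤ)) {ω | f (φ (rd c ω)) ≠ f (φ (rd c' ω))} ≤ ∑' j, d ν φ (K j) := by
  calc (iid ν (Fin 3 × ℤ)) {ω | f (φ (rd c ω)) ≠ f (φ (rd c' ω))}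
      ≤ (iid ν (Fin 3 × ℤ)) (⋃ j, {ω | φ (rd c ω) (pos j) ≠ φ (rd c' ω) (pos j)}) := by
        refine measure_mono fun ω hω => ?_
        by_contra hcon
        simp only [mem_iUnion, mem_setOf_eq, not_exists, not_not] at hcon
        exact hω (hf _ _ hcon)
    _ ≤ ∑' j, (iid ν (Fin 3 × ℤ)) {ω | φ (rd c ω) (pos j) ≠ φ (rd c' ω) (pos j)} :=
        measure_iUnion_le _
    _ = ∑' j, d ν φ (K j) := by
        congr 1; funext j
        rw [measure_ne_eq_d ν hφ heq, hK j]

theorem bell_bound (ν : Measure T) [IsProbabilityMeasure ν]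
    {φ : (ℤ → T) → (ℤ → S)} (hφ : Measurable φ)
    (heq : ∀ᵐ y ∂(iid ν ℤ), φ (shift y) = shift (φ y)) (m : ℕ)
    (al be : (ℤ → S) → ℝ) (xf yf : (ℤ → S) → Bool)
    (mal : Measurable al) (mbe : Measurable be) (mxf : Measurable xf) (myf : Measurable yf)
    (al1 : ∀ x, al x = 1 ∨ al x = -1) (be1 : ∀ x, be x = 1 ∨ be x = -1)
    (hal : ∀ x x' : ℤ → S, (∀ j : ℕ, x (-1 - j) = x' (-1 - j)) → al x = al x')
    (hbe : ∀ x x' : ℤ → S, (∀ j : ℕ, x j = x' j) → be x = be x')
    (hxf : ∀ x x' : ℤ → S, (∀ j : ℕ, x (-(2 * m) - 1 - j) = x' (-(2 * m) - 1 - j)) → xf x = xf x')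
    (hyf : ∀ x x' : ℤ → S, (∀ j : ℕ, x (2 * m + 1 + j) = x' (2 * m + 1 + j)) → yf x = yf x')
    (hx : ∀ c, (iid ν ℤ) {y | xf (φ y) = c} ≤ 1 / 2)
    (hy : ∀ c, (iid ν ℤ) {y | yf (φ y) = c} ≤ 1 / 2) :
    1 / 4 ≤ (iid ν ℤ) {y | al (φ y) * be (φ y) ≠ sg (xf (φ y) && yf (φ y))} +
      ((∑' j : ℕ, d ν φ (Iic ((j : ℤ) + m + 1)) + ∑' j : ℕ, d ν φ (Iic ((j : ℤ) + m))) +
       (∑' j : ℕ, d ν φ (Ici (-((j : ℤ) + m))) + ∑' j : ℕ, d ν φ (Ici (-((j : ℤ) + m))))) := by
  set Q := iid ν (Fin 3 × ℤ) with hQ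
  set Lose' : Set (Fin 3 × ℤ → T) := {ω | al (φ (rd (cq m 0) ω)) * be (φ (rd (cq m 2) ω)) ≠
    sg (xf (φ (rd (fun _ => 0) ω)) && yf (φ (rd (fun _ => 2) ω)))} with hLose'
  -- Step A
  have hA : 1 / 4 ≤ Q Lose' := by
    let F : (ℤ → T) → (ℤ → T) → ℝ := fun s l =>
      al (φ (fun k => if -(m : ℤ) ≤ k ∧ k ≤ m then s k else l k))
    let G : (ℤ → T) → (ℤ → T) → ℝ := fun s r =>
      be (φ (fun k => if -(m : ℤ) ≤ k ∧ k ≤ m then s k else r k))
    have mmix : Measurable (fun p : (ℤ → T) × (ℤ → T) =>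
        (fun k => if -(m : ℤ) ≤ k ∧ k ≤ m then p.1 k else p.2 k : ℤ → T)) := by
      rw [measurable_pi_iff]
      intro k
      by_cases hk : -(m : ℤ) ≤ k ∧ k ≤ m
      · simp only [hk, and_self, if_true]; fun_prop
      · simp only [hk, if_false]; fun_prop
    have mF : Measurable (Function.uncurry F) := mal.comp (hφ.comp mmix)
    have mG : Measurable (Function.uncurry G) := mbe.comp (hφ.comp mmix)
    have hchsh := chsh (iid ν ℤ) (iid ν ℤ) (iid ν ℤ) F G (fun l => xf (φ l)) (fun r => yf (φ r))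
      mF mG (mxf.comp hφ) (myf.comp hφ)
      (fun s l => by rcases al1 (φ (fun k => if -(m : ℤ) ≤ k ∧ k ≤ m then s k else l k)) with h | h
                     all_goals simp [F, h])
      (fun s l => by rcases be1 (φ (fun k => if -(m : ℤ) ≤ k ∧ k ≤ m then s k else l k)) with h | h
                     all_goals simp [G, h])
      hx hy
    have mInt : Measurable (fun z : (ℤ → T) × ((ℤ → T) × (ℤ → T)) =>
        F z.1 z.2.1 * G z.1 z.2.2 * sg (xf (φ z.2.1) && yf (φ z.2.2))) := by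
      refine ((mF.comp (measurable_fst.prodMk (measurable_fst.comp measurable_snd))).mul
        (mG.comp (measurable_fst.prodMk (measurable_snd.comp measurable_snd)))).mul ?_
      exact (measurable_of_countable (fun q : Bool × Bool => sg (q.1 && q.2))).comp
        (((mxf.comp hφ).comp (measurable_fst.comp measurable_snd)).prodMk
        ((myf.comp hφ).comp (measurable_snd.comp measurable_snd)))
    rw [← (three_preserving ν).map_eq,
      integral_map (three_preserving ν).measurable.aemeasurable mInt.aestronglyMeasurable] at hchsh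
    have hmL : MeasurableSet Lose' := by
      have m1 : Measurable (fun ω : Fin 3 × ℤ → T =>
        al (φ (rd (cq m 0) ω)) * be (φ (rd (cq m 2) ω))) :=
        (mal.comp (hφ.comp (measurable_rd _))).mul (mbe.comp (hφ.comp (measurable_rd _)))
      have m2 : Measurable (fun ω : Fin 3 × ℤ → T =>
        sg (xf (φ (rd (fun _ => 0) ω)) && yf (φ (rd (fun _ => 2) ω)))) :=
        (measurable_of_countable (fun q : Bool × Bool => sg (q.1 && q.2))).comp
        ((mxf.comp (hφ.comp (measurable_rd _))).prodMk (myf.comp (hφ.comp (measurable_rd _))))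
      exact (measurableSet_eq_fun m1 m2).compl
    have hcongr : ∀ ω : Fin 3 × ℤ → T, F (three ω).1 (three ω).2.1 * G (three ω).1 (three ω).2.2 *
        sg (xf (φ (three ω).2.1) && yf (φ (three ω).2.2)) =
        1 - 2 * Lose'.indicator (fun _ => (1 : ℝ)) ω := by
      intro ω
      have e1 : F (three ω).1 (three ω).2.1 = al (φ (rd (cq m 0) ω)) := by
        change al (φ _) = _
        congr 2
        funext k
        by_cases hk : -(m : ℤ) ≤ k ∧ k ≤ m <;> simp [three, rd, cq, hk]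
      have e2 : G (three ω).1 (three ω).2.2 = be (φ (rd (cq m 2) ω)) := by
        change be (φ _) = _
        congr 2
        funext k
        by_cases hk : -(m : ℤ) ≤ k ∧ k ≤ m <;> simp [three, rd, cq, hk]
      rw [e1, e2]
      change _ * _ * sg (xf (φ (rd (fun _ => 0) ω)) && yf (φ (rd (fun _ => 2) ω))) = _
      by_cases hω : ω ∈ Lose'
      · rw [Set.indicator_of_mem hω]
        have hne : al (φ (rd (cq m 0) ω)) * be (φ (rd (cq m 2) ω)) ≠
          sg (xf (φ (rd (fun _ => 0) ω)) && yf (φ (rd (fun _ => 2) ω))) := hω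
        revert hne
        generalize (xf (φ (rd (fun _ => 0) ω)) && yf (φ (rd (fun _ => 2) ω))) = q
        rcases al1 (φ (rd (cq m 0) ω)) with h | h <;> rcases be1 (φ (rd (cq m 2) ω)) with h' | h' <;>
          cases q <;> simp [h, h'] <;> norm_num
      · rw [Set.indicator_of_notMem hω]
        have hne : al (φ (rd (cq m 0) ω)) * be (φ (rd (cq m 2) ω)) =
          sg (xf (φ (rd (fun _ => 0) ω)) && yf (φ (rd (fun _ => 2) ω))) := by
          by_contra h; exact hω h
        rw [hne, sg_mul_self]; norm_num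
    rw [integral_congr_ae (ae_of_all _ hcongr)] at hchsh
    rw [integral_sub (integrable_const _) (((integrable_const (1 : ℝ)).indicator hmL).const_mul 2),
      integral_const_mul, integral_indicator hmL] at hchsh
    simp only [integral_const, probReal_univ, smul_eq_mul, mul_one, MeasurableSet.univ,
      measureReal_restrict_apply, univ_inter] at hchsh
    have hreal : (1 / 4 : ℝ) ≤ (Q Lose').toReal := by
      change (1 / 4 : ℝ) ≤ Q.real Lose'
      linarith
    rw [show (1 / 4 : ℝ≥0∞) = ENNReal.ofReal (1 / 4) by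
      rw [ENNReal.ofReal_div_of_pos (by norm_num)]; simp]
    exact ENNReal.ofReal_le_of_le_toReal hreal
  -- Step B
  have hB : Lose' ⊆ (rd (c0 m)) ⁻¹' {y | al (φ y) * be (φ y) ≠ sg (xf (φ y) && yf (φ y))} ∪
      (({ω | al (φ (rd (c0 m) ω)) ≠ al (φ (rd (cq m 0) ω))} ∪
        {ω | xf (φ (rd (c0 m) ω)) ≠ xf (φ (rd (fun _ => 0) ω))}) ∪
       ({ω | be (φ (rd (c0 m) ω)) ≠ be (φ (rd (cq m 2) ω))} ∪
        {ω | yf (φ (rd (c0 m) ω)) ≠ yf (φ (rd (fun _ => 2) ω))})) := by
    intro ω hω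
    by_contra hcon
    simp only [mem_union, mem_preimage, mem_setOf_eq, not_or, not_not] at hcon
    obtain ⟨h1, ⟨h2, h3⟩, h4, h5⟩ := hcon
    apply hω
    rw [← h2, ← h3, ← h4, ← h5]
    exact h1
  have mbad : MeasurableSet {y | al (φ y) * be (φ y) ≠ sg (xf (φ y) && yf (φ y))} := by
    have m1 : Measurable (fun y : ℤ → T => al (φ y) * be (φ y)) :=
      (mal.comp hφ).mul (mbe.comp hφ)
    have m2 : Measurable (fun y : ℤ → T => sg (xf (φ y) && yf (φ y))) :=
      (measurable_of_countable (fun q : Bool × Bool => sg (q.1 && q.2))).comp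
      ((mxf.comp hφ).prodMk (myf.comp hφ))
    exact (measurableSet_eq_fun m1 m2).compl
  calc 1 / 4 ≤ Q Lose' := hA
    _ ≤ _ := measure_mono hB
    _ ≤ _ := (measure_union_le _ _).trans (add_le_add le_rfl ((measure_union_le _ _).trans
        (add_le_add (measure_union_le _ _) (measure_union_le _ _))))
    _ ≤ _ := by
      gcongr
      · exact ((rd_preserving ν (c0 m)).measure_preimage mbad.nullMeasurableSet).le
      · refine union_bound ν hφ heq _ _ al (fun j => -1 - j) hal _ fun j => ?_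
        ext k
        simp only [mem_setOf_eq, mem_Iic, c0, cq]
        split_ifs <;> simp <;> omega
      · refine union_bound ν hφ heq _ _ xf (fun j => -(2 * m) - 1 - j) hxf _ fun j => ?_
        ext k
        simp only [mem_setOf_eq, mem_Iic, c0]
        split_ifs <;> simp <;> omega
      · refine union_bound ν hφ heq _ _ be (fun j => j) hbe _ fun j => ?_
        ext k
        simp only [mem_setOf_eq, mem_Ici, c0, cq]
        split_ifs <;> simp <;> omega
      · refine union_bound ν hφ heq _ _ yf (fun j => 2 * m + 1 + j) hyf _ fun j => ?_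
        ext k
        simp only [mem_setOf_eq, mem_Ici, c0]
        split_ifs <;> simp <;> omega

end

end Pool.Agent.Lib.MP_ba6fcf_pr
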