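import Mathlib

open Set

namespace Pool.Agent.Lib.MP_ba6fcf_pr

/-- Site types: cut flag, right setting `x`, left setting `y`. -/
abbrev Ty := Bool × Bool × Bool

/-- Cells: cut flag, `x`, `y`, left output `u`, right output `v`. -/
abbrev Cell := Bool × Bool × Bool × Bool × Bool

/-- Type part of a cell. -/
def tyOf (c : Cell) : Ty := (c.1, c.2.1, c.2.2.1)

/-- There is a first cut to the left of `b`, at distance `n`, and its bit `q` is set. -/
def FirstL (τ : ℤ → Ty) (q : Ty → Bool) (b : ℤ) : Prop :=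
  ∃ n : ℕ, (τ (b - 1 - n)).1 = true ∧ (∀ k : ℕ, k < n → (τ (b - 1 - k)).1 = false) ∧
    q (τ (b - 1 - n)) = true

/-- There is a first cut at or to the right of `b`, at distance `n`, and its bit `q` is set. -/
def FirstR (τ : ℤ → Ty) (q : Ty → Bool) (b : ℤ) : Prop :=
  ∃ n : ℕ, (τ (b + n)).1 = true ∧ (∀ k : ℕ, k < n → (τ (b + k)).1 = false) ∧
    q (τ (b + n)) = true

open scoped Classical in
/-- The `x`-setting of the last cut before `b`. -/
noncomputable def HH (τ : ℤ → Ty) (b : ℤ) : Bool := decide (FirstL τ (fun t => t.2.1) b)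

open scoped Classical in
/-- The `y`-setting of the first cut at or after `b`. -/
noncomputable def YY (τ : ℤ → Ty) (b : ℤ) : Bool := decide (FirstR τ (fun t => t.2.2) b)

lemma firstL_succ_cut (τ : ℤ → Ty) (q : Ty → Bool) (b : ℤ) (h : (τ b).1 = true) :
    FirstL τ q (b + 1) ↔ q (τ b) = true := by
  constructor
  · rintro ⟨n, h1, h2, h3⟩
    rcases n with _ | n
    · simpa using h3
    · have := h2 0 (Nat.succ_pos n)
      simp [h] at this
  · intro hq
    refine ⟨0, ?_, by simp, ?_⟩ <;> simpa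

lemma firstL_succ_nocut (τ : ℤ → Ty) (q : Ty → Bool) (b : ℤ) (h : (τ b).1 = false) :
    FirstL τ q (b + 1) ↔ FirstL τ q b := by
  constructor
  · rintro ⟨n, h1, h2, h3⟩
    rcases n with _ | n
    · simp [h] at h1
    · have e : b + 1 - 1 - ((n + 1 : ℕ) : ℤ) = b - 1 - n := by push_cast; ring
      rw [e] at h1 h3
      refine ⟨n, h1, fun k hk => ?_, h3⟩
      have := h2 (k + 1) (by omega)
      rwa [show b + 1 - 1 - ((k + 1 : ℕ) : ℤ) = b - 1 - k by push_cast; ring] at this
  · rintro ⟨n, h1, h2, h3⟩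
    have e : b + 1 - 1 - ((n + 1 : ℕ) : ℤ) = b - 1 - n := by push_cast; ring
    refine ⟨n + 1, by rw [e]; exact h1, fun k hk => ?_, by rw [e]; exact h3⟩
    rcases k with _ | k
    · simpa using h
    · have := h2 k (by omega)
      rwa [show b + 1 - 1 - ((k + 1 : ℕ) : ℤ) = b - 1 - k by push_cast; ring]

lemma firstR_cut (τ : ℤ → Ty) (q : Ty → Bool) (b : ℤ) (h : (τ b).1 = true) :
    FirstR τ q b ↔ q (τ b) = true := by
  constructor
  · rintro ⟨n, h1, h2, h3⟩
    rcases n with _ | n
    · simpa using h3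
    · have := h2 0 (Nat.succ_pos n)
      simp [h] at this
  · intro hq
    refine ⟨0, ?_, by simp, ?_⟩ <;> simpa

lemma firstR_nocut (τ : ℤ → Ty) (q : Ty → Bool) (b : ℤ) (h : (τ b).1 = false) :
    FirstR τ q b ↔ FirstR τ q (b + 1) := by
  constructor
  · rintro ⟨n, h1, h2, h3⟩
    rcases n with _ | n
    · simp [h] at h1
    · have e : b + ((n + 1 : ℕ) : ℤ) = b + 1 + n := by push_cast; ring
      rw [e] at h1 h3
      refine ⟨n, h1, fun k hk => ?_, h3⟩
      have := h2 (k + 1) (by omega)
      rwa [show b + ((k + 1 : ℕ) : ℤ) = b + 1 + k by push_cast; ring] at this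
  · rintro ⟨n, h1, h2, h3⟩
    have e : b + ((n + 1 : ℕ) : ℤ) = b + 1 + n := by push_cast; ring
    refine ⟨n + 1, by rw [e]; exact h1, fun k hk => ?_, by rw [e]; exact h3⟩
    rcases k with _ | k
    · simpa using h
    · have := h2 k (by omega)
      rwa [show b + ((k + 1 : ℕ) : ℤ) = b + 1 + k by push_cast; ring]

lemma HH_succ_cut (τ : ℤ → Ty) (b : ℤ) (h : (τ b).1 = true) : HH τ (b + 1) = (τ b).2.1 := by
  unfold HH
  rw [Bool.eq_iff_iff]; simp only [decide_eq_true_eq]; exact firstL_succ_cut τ _ b h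

lemma HH_succ_nocut (τ : ℤ → Ty) (b : ℤ) (h : (τ b).1 = false) : HH τ (b + 1) = HH τ b := by
  unfold HH
  rw [Bool.eq_iff_iff]; simp only [decide_eq_true_eq]; exact firstL_succ_nocut τ _ b h

lemma YY_cut (τ : ℤ → Ty) (b : ℤ) (h : (τ b).1 = true) : YY τ b = (τ b).2.2 := by
  unfold YY
  rw [Bool.eq_iff_iff]; simp only [decide_eq_true_eq]; exact firstR_cut τ _ b h

lemma YY_nocut (τ : ℤ → Ty) (b : ℤ) (h : (τ b).1 = false) : YY τ b = YY τ (b + 1) := by
  unfold YY
  rw [Bool.eq_iff_iff]; simp only [decide_eq_true_eq]; exact firstR_nocut τ _ b h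

/-- No cut in `[a, b)` implies equality of the left settings. -/
lemma HH_eq (τ : ℤ → Ty) (a : ℤ) (n : ℕ) (h : ∀ k : ℕ, k < n → (τ (a + k)).1 = false) :
    HH τ (a + n) = HH τ a := by
  induction n with
  | zero => simp
  | succ n ih =>
    rw [← ih fun k hk => h k (by omega)]
    have := HH_succ_nocut τ (a + n) (h n (by omega))
    rw [← this]
    congr 1
    push_cast; ring

lemma YY_eq (τ : ℤ → Ty) (a : ℤ) (n : ℕ) (h : ∀ k : ℕ, k < n → (τ (a + k)).1 = false) :
    YY τ a = YY τ (a + n) := by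
  induction n with
  | zero => simp
  | succ n ih =>
    rw [ih fun k hk => h k (by omega)]
    have := YY_nocut τ (a + n) (h n (by omega))
    rw [this]
    congr 1
    push_cast; ring

/-- `HH τ b` depends only on `τ` on `(-∞, b)`. -/
lemma HH_congr (τ τ' : ℤ → Ty) (b : ℤ) (h : ∀ k, k < b → τ k = τ' k) : HH τ b = HH τ' b := by
  have e : ∀ n : ℕ, τ (b - 1 - n) = τ' (b - 1 - n) := fun n => h _ (by omega)
  unfold HH
  rw [Bool.eq_iff_iff]
  simp only [decide_eq_true_eq]
  unfold FirstL
  simp only [e]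

lemma YY_congr (τ τ' : ℤ → Ty) (b : ℤ) (h : ∀ k, b ≤ k → τ k = τ' k) : YY τ b = YY τ' b := by
  have e : ∀ n : ℕ, τ (b + n) = τ' (b + n) := fun n => h _ (by omega)
  unfold YY
  rw [Bool.eq_iff_iff]
  simp only [decide_eq_true_eq]
  unfold FirstR
  simp only [e]

/-- The chain: the cell at site `i` built from the types `τ` and the link bits `g`. -/
noncomputable def cell (τ : ℤ → Ty) (g : ℤ → Bool) (i : ℤ) : Cell :=
  ((τ i).1, (τ i).2.1, (τ i).2.2,
    if (τ i).1 then (g i ^^ (HH τ i && (τ i).2.2)) else (g i ^^ g (i + 1)),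
    (τ i).1 && g (i + 1))

lemma tyOf_cell (τ : ℤ → Ty) (g : ℤ → Bool) (i : ℤ) : tyOf (cell τ g i) = τ i := rfl

lemma cell_congr (τ τ' : ℤ → Ty) (g g' : ℤ → Bool) (i : ℤ) (h : ∀ k, k ≤ i → τ k = τ' k)
    (h1 : g i = g' i) (h2 : g (i + 1) = g' (i + 1)) : cell τ g i = cell τ' g' i := by
  unfold cell
  rw [h i le_rfl, h1, h2, HH_congr τ τ' i fun k hk => h k hk.le]

/-- Accumulated exclusive or. -/
def acc (f : ℕ → Bool) : ℕ → Bool
  | 0 => false
  | n + 1 => acc f n ^^ f n

lemma acc_congr (f f' : ℕ → Bool) (n : ℕ) (h : ∀ k, k < n → f k = f' k) : acc f n = acc f' n := by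
  induction n with
  | zero => rfl
  | succ n ih => rw [acc, acc, ih fun k hk => h k (by omega), h n (by omega)]

/-- Left outcome. -/
def ALP (x : ℤ → Cell) : Prop :=
  ∃ n : ℕ, (x (-1 - n)).1 = true ∧ (∀ k : ℕ, k < n → (x (-1 - k)).1 = false) ∧
    ((x (-1 - n)).2.2.2.2 ^^ acc (fun k => (x (-1 - k)).2.2.2.1) n) = true

/-- Right outcome. -/
def BEP (x : ℤ → Cell) : Prop :=
  ∃ n : ℕ, (x n).1 = true ∧ (∀ k : ℕ, k < n → (x k).1 = false) ∧
    acc (fun k => (x k).2.2.2.1) (n + 1) = true

open scoped Classical in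
/-- Left outcome as a bit. -/
noncomputable def AL (x : ℤ → Cell) : Bool := decide (ALP x)

open scoped Classical in
/-- Right outcome as a bit. -/
noncomputable def BE (x : ℤ → Cell) : Bool := decide (BEP x)

lemma AL_congr (x x' : ℤ → Cell) (h : ∀ j : ℕ, x (-1 - j) = x' (-1 - j)) : AL x = AL x' := by
  unfold AL
  rw [Bool.eq_iff_iff]
  simp only [decide_eq_true_eq]
  unfold ALP
  simp only [h]

lemma BE_congr (x x' : ℤ → Cell) (h : ∀ j : ℕ, x j = x' j) : BE x = BE x' := by
  unfold BE
  rw [Bool.eq_iff_iff]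
  simp only [decide_eq_true_eq]
  unfold BEP
  simp only [h]

lemma exists_first (P : ℕ → Bool) (h : ∃ n, P n = true) :
    ∃ n, P n = true ∧ ∀ k, k < n → P k = false := by
  classical
  refine ⟨Nat.find h, Nat.find_spec h, fun k hk => ?_⟩
  have := Nat.find_min h hk
  simpa using this

lemma acc_left (τ : ℤ → Ty) (g : ℤ → Bool) (n : ℕ)
    (h : ∀ k : ℕ, k < n → (τ (-1 - k)).1 = false) :
    acc (fun k => (cell τ g (-1 - k)).2.2.2.1) n = (g 0 ^^ g (-n)) := by
  induction n with
  | zero => simp [acc]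
  | succ n ih =>
    rw [acc, ih fun k hk => h k (by omega)]
    have hn := h n (by omega)
    simp only [cell, hn]
    have e1 : (-1 - (n : ℤ)) + 1 = -(n : ℤ) := by ring
    have e2 : -((n + 1 : ℕ) : ℤ) = -1 - n := by push_cast; ring
    rw [e1, e2]
    cases g 0 <;> cases g (-(n : ℤ)) <;> cases g (-1 - (n : ℤ)) <;> simp

lemma AL_cell (τ : ℤ → Ty) (g : ℤ → Bool) (h : ∃ n : ℕ, (τ (-1 - n)).1 = true) :
    AL (cell τ g) = g 0 := by
  obtain ⟨n, hn, hk⟩ := exists_first (fun n => (τ (-1 - n)).1) h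
  have key : ((cell τ g (-1 - n)).2.2.2.2 ^^ acc (fun k => (cell τ g (-1 - k)).2.2.2.1) n) =
      g 0 := by
    rw [acc_left τ g n hk]
    have e1 : (-1 - (n : ℤ)) + 1 = -(n : ℤ) := by ring
    simp only [cell, hn, e1]
    cases g 0 <;> cases g (-(n : ℤ)) <;> simp
  have hiff : ALP (cell τ g) ↔ g 0 = true := by
    constructor
    · rintro ⟨n', h1, h2, h3⟩
      have hnn : n' = n := by
        rcases lt_trichotomy n' n with hlt | heq | hgt
        · have := hk n' hlt
          simp only [cell] at h1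
          simp [this] at h1
        · exact heq
        · have := h2 n hgt
          simp only [cell] at this
          simp [hn] at this
      subst hnn
      rwa [key] at h3
    · intro hg
      exact ⟨n, hn, hk, by rw [key]; exact hg⟩
  unfold AL
  rw [Bool.eq_iff_iff]
  simp only [decide_eq_true_eq]
  exact hiff

lemma acc_right (τ : ℤ → Ty) (g : ℤ → Bool) (n : ℕ)
    (h : ∀ k : ℕ, k < n → (τ k).1 = false) :
    acc (fun k => (cell τ g k).2.2.2.1) n = (g 0 ^^ g n) := by
  induction n with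
  | zero => simp [acc]
  | succ n ih =>
    rw [acc, ih fun k hk => h k (by omega)]
    have hn := h n (by omega)
    simp only [cell, hn]
    have e2 : ((n + 1 : ℕ) : ℤ) = n + 1 := by push_cast; ring
    rw [e2]
    cases g 0 <;> cases g (n : ℤ) <;> cases g (n + 1 : ℤ) <;> simp

lemma BE_cell (τ : ℤ → Ty) (g : ℤ → Bool) (h : ∃ n : ℕ, (τ n).1 = true) :
    BE (cell τ g) = (g 0 ^^ (HH τ 0 && YY τ 0)) := by
  obtain ⟨n, hn, hk⟩ := exists_first (fun n => (τ n).1) h
  have hH : HH τ n = HH τ 0 := by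
    have := HH_eq τ 0 n (by simpa using hk)
    simpa using this
  have hY : YY τ 0 = (τ n).2.2 := by
    have := YY_eq τ 0 n (by simpa using hk)
    rw [this]
    simpa using YY_cut τ n hn
  have key : acc (fun k => (cell τ g k).2.2.2.1) (n + 1) = (g 0 ^^ (HH τ 0 && YY τ 0)) := by
    rw [acc, acc_right τ g n hk]
    simp only [cell]
    simp only [hn, if_true]
    rw [hH, hY]
    cases g 0 <;> cases g (n : ℤ) <;> cases HH τ 0 <;> cases (τ (n : ℤ)).2.2 <;> simp
  have hiff : BEP (cell τ g) ↔ (g 0 ^^ (HH τ 0 && YY τ 0)) = true := by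
    constructor
    · rintro ⟨n', h1, h2, h3⟩
      have hnn : n' = n := by
        rcases lt_trichotomy n' n with hlt | heq | hgt
        · have := hk n' hlt
          simp only [cell] at h1
          simp [this] at h1
        · exact heq
        · have := h2 n hgt
          simp only [cell] at this
          simp [hn] at this
      subst hnn
      rwa [key] at h3
    · intro hg
      exact ⟨n, hn, hk, by rw [key]; exact hg⟩
  unfold BE
  rw [Bool.eq_iff_iff]
  simp only [decide_eq_true_eq]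
  exact hiff

/-! ### The gauge transformation at site `i` -/

open scoped Classical in
/-- The gauge shift at the link `k`. -/
noncomputable def gau (i : ℤ) (τ : ℤ → Ty) (k : ℤ) : Bool :=
  decide (i < k ∧ ∀ l, i < l → l < k → (τ l).1 = false) && (HH τ (i + 1) && YY τ (i + 1))

/-- Forget the types at sites `≤ i` (replace them by a trivial cut). -/
def tmod (i : ℤ) (τ : ℤ → Ty) (k : ℤ) : Ty := if k ≤ i then (true, false, false) else τ k

lemma gau_of_le (i : ℤ) (τ : ℤ → Ty) (k : ℤ) (h : k ≤ i) : gau i τ k = false := by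
  unfold gau
  have : ¬ (i < k ∧ ∀ l, i < l → l < k → (τ l).1 = false) := fun hh => absurd hh.1 (by omega)
  simp [this]

lemma HH_tmod (i : ℤ) (τ : ℤ → Ty) (n : ℕ) :
    ((∀ l, i < l → l < i + 1 + n → (τ l).1 = false) →
      HH (tmod i τ) (i + 1 + n) = false ∧ HH τ (i + 1 + n) = HH τ (i + 1)) ∧
    (¬ (∀ l, i < l → l < i + 1 + n → (τ l).1 = false) →
      HH (tmod i τ) (i + 1 + n) = HH τ (i + 1 + n)) := by
  induction n with
  | zero =>
    constructor
    · intro _
      constructor
      · have := HH_succ_cut (tmod i τ) i (by simp [tmod])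
        simp only [CharP.cast_eq_zero, add_zero]
        rw [this]; simp [tmod]
      · simp
    · intro h
      exfalso; apply h
      intro l h1 h2
      simp at h2; omega
  | succ n ih =>
    have e : i + 1 + ((n + 1 : ℕ) : ℤ) = (i + 1 + n) + 1 := by push_cast; ring
    have ht : tmod i τ (i + 1 + n) = τ (i + 1 + n) := by
      unfold tmod; rw [if_neg (by omega)]
    rw [e]
    rcases hc : (τ (i + 1 + n)).1 with _ | _
    · -- no cut at i+1+n
      rw [HH_succ_nocut (tmod i τ) _ (by rw [ht]; exact hc), HH_succ_nocut τ _ hc]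
      have hiff : (∀ l, i < l → l < (i + 1 + n) + 1 → (τ l).1 = false) ↔
          (∀ l, i < l → l < i + 1 + n → (τ l).1 = false) := by
        constructor
        · intro h l h1 h2; exact h l h1 (by omega)
        · intro h l h1 h2
          rcases (by omega : l < i + 1 + n ∨ l = i + 1 + n) with h3 | h3
          · exact h l h1 h3
          · rw [h3]; exact hc
      rw [hiff]
      exact ih
    · rw [HH_succ_cut (tmod i τ) _ (by rw [ht]; exact hc), HH_succ_cut τ _ hc, ht]
      refine ⟨fun h => ?_, fun _ => rfl⟩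
      have := h (i + 1 + n) (by omega) (by omega)
      rw [hc] at this; exact absurd this (by simp)

theorem cell_gauge_right (i : ℤ) (τ : ℤ → Ty) (g : ℤ → Bool) (k : ℤ) (hk : i < k) :
    cell τ g k = cell (tmod i τ) (fun l => g l ^^ gau i τ l) k := by
  obtain ⟨n, rfl⟩ : ∃ n : ℕ, k = i + 1 + n := ⟨(k - i - 1).toNat, by omega⟩
  have ht : tmod i τ (i + 1 + n) = τ (i + 1 + n) := by
    unfold tmod; rw [if_neg (by omega)]
  obtain ⟨h1, h2⟩ := HH_tmod i τ n
  unfold cell
  rw [ht]
  rcases hc : (τ (i + 1 + n)).1 with _ | _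
  · -- no cut: both link bits are shifted by the same amount
    have hiff : (i < i + 1 + n + 1 ∧ ∀ l, i < l → l < (i + 1 + n) + 1 → (τ l).1 = false) ↔
        (i < i + 1 + n ∧ ∀ l, i < l → l < i + 1 + n → (τ l).1 = false) := by
      constructor
      · rintro ⟨_, h⟩; exact ⟨by omega, fun l h1 h2 => h l h1 (by omega)⟩
      · rintro ⟨_, h⟩
        refine ⟨by omega, fun l h1 h2 => ?_⟩
        rcases (by omega : l < i + 1 + n ∨ l = i + 1 + n) with h3 | h3
        · exact h l h1 h3
        · rw [h3]; exact hc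
    have hgau : gau i τ (i + 1 + n + 1) = gau i τ (i + 1 + n) := by
      unfold gau
      simp only [hiff]
    simp only [hgau]
    cases g (i + 1 + n) <;> cases g (i + 1 + n + 1) <;> cases gau i τ (i + 1 + n) <;> simp
  · have hgau1 : gau i τ (i + 1 + n + 1) = false := by
      unfold gau
      have : ¬ (i < i + 1 + n + 1 ∧ ∀ l, i < l → l < (i + 1 + n) + 1 → (τ l).1 = false) := by
        rintro ⟨_, h⟩
        have := h (i + 1 + n) (by omega) (by omega)
        rw [hc] at this; exact absurd this (by simp)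
      rw [decide_eq_false this, Bool.false_and]
    simp only [hgau1, Bool.xor_false]
    by_cases hnc : ∀ l, i < l → l < i + 1 + n → (τ l).1 = false
    · obtain ⟨h3, h4⟩ := h1 hnc
      have hY : YY τ (i + 1) = (τ (i + 1 + n)).2.2 := by
        rw [YY_eq τ (i + 1) n (fun k hk => hnc _ (by omega) (by omega)), YY_cut τ _ hc]
      have hgau2 : gau i τ (i + 1 + n) = (HH τ (i + 1) && (τ (i + 1 + n)).2.2) := by
        unfold gau
        have : (i < i + 1 + n ∧ ∀ l, i < l → l < i + 1 + n → (τ l).1 = false) :=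
          ⟨by omega, hnc⟩
        rw [decide_eq_true this, Bool.true_and, hY]
      rw [h3, h4, hgau2]
      simp
    · have hgau2 : gau i τ (i + 1 + n) = false := by
        unfold gau
        have : ¬ (i < i + 1 + n ∧ ∀ l, i < l → l < i + 1 + n → (τ l).1 = false) :=
          fun h => hnc h.2
        rw [decide_eq_false this, Bool.false_and]
      rw [h2 hnc, hgau2]
      simp

theorem cell_gauge_left (i : ℤ) (τ : ℤ → Ty) (g : ℤ → Bool) (k : ℤ) (hk : k < i) :
    cell τ g k = cell τ (fun l => g l ^^ gau i τ l) k := by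
  refine cell_congr _ _ _ _ _ (fun _ _ => rfl) ?_ ?_
  · rw [gau_of_le i τ k hk.le]; simp
  · rw [gau_of_le i τ (k + 1) (by omega)]; simp

end Pool.Agent.Lib.MP_ba6fcf_pr
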