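import Mathlib
import Pool.Agent.Lib.MP_ba6fcf_pr.Defs

open MeasureTheory ProbabilityTheory Set

namespace Pool.Agent.Lib.MP_ba6fcf_pr

lemma indep3 {Ω α β γ : Type*} [MeasurableSpace Ω] [MeasurableSpace α] [MeasurableSpace β]
    [MeasurableSpace γ] {μ : Measure Ω} [IsProbabilityMeasure μ] {U : Ω → α} {V : Ω → β}
    {W : Ω → γ} (mU : Measurable U) (mV : Measurable V) (mW : Measurable W)
    (hUV : IndepFun U V μ) (hUVW : IndepFun (fun ω => (U ω, V ω)) W μ) :
    IndepFun U (fun ω => (V ω, W ω)) μ := by
  have hVW : IndepFun V W μ := hUVW.comp (φ := Prod.snd) (ψ := id) measurable_snd measurable_id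
  rw [indepFun_iff_map_prod_eq_prod_map_map mU.aemeasurable (mV.prodMk mW).aemeasurable]
  rw [indepFun_iff_map_prod_eq_prod_map_map (mU.prodMk mV).aemeasurable mW.aemeasurable] at hUVW
  rw [indepFun_iff_map_prod_eq_prod_map_map mU.aemeasurable mV.aemeasurable] at hUV
  rw [indepFun_iff_map_prod_eq_prod_map_map mV.aemeasurable mW.aemeasurable] at hVW
  have : IsProbabilityMeasure (μ.map U) := Measure.isProbabilityMeasure_map mU.aemeasurable
  have : IsProbabilityMeasure (μ.map V) := Measure.isProbabilityMeasure_map mV.aemeasurable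
  have : IsProbabilityMeasure (μ.map W) := Measure.isProbabilityMeasure_map mW.aemeasurable
  rw [hVW, ← Measure.prodAssoc_prod, ← hUV, ← hUVW,
    Measure.map_map MeasurableEquiv.prodAssoc.measurable (by fun_prop)]
  rfl

lemma indepFun_of_subsingleton {Ω α β : Type*} [MeasurableSpace Ω] [MeasurableSpace α]
    [MeasurableSpace β] {μ : Measure Ω} [IsProbabilityMeasure μ] {U : Ω → α}
    {V : Ω → β} (h : ∀ ω ω', U ω = U ω') : IndepFun U V μ := by
  have hne : Nonempty Ω := by
    by_contra hcon
    rw [not_nonempty_iff] at hcon
    have := measure_univ (μ := μ)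
    rw [Set.univ_eq_empty_iff.2 hcon] at this
    simp at this
  obtain ⟨ω0⟩ := hne
  have : U = fun _ => U ω0 := funext fun ω => h ω ω0
  rw [this]
  exact indepFun_const_left _ _

variable {S : Type*} [MeasurableSpace S]

lemma finite_case (μ : Measure (ℤ → S)) [IsProbabilityMeasure μ]
    (h : ∀ i : ℤ, IndepFun (fun (x : ℤ → S) (a : Iio i) => x a)
      (fun (x : ℤ → S) (b : Ioi i) => x b) μ) :
    ∀ (n : ℕ) (A B : Finset ℤ), A.card + B.card ≤ n → (∀ i ∈ A, ∀ j ∈ B, (1 : ℤ) < |i - j|) →
      IndepFun (fun (x : ℤ → S) (a : A) => x a) (fun (x : ℤ → S) (b : B) => x b) μ := by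
  intro n
  induction n with
  | zero =>
    intro A B hc _
    have hA : A = ∅ := by
      rw [← Finset.card_eq_zero]; omega
    subst hA
    exact indepFun_of_subsingleton fun ω ω' => funext fun a => absurd a.2 (Finset.notMem_empty _)
  | succ n ih =>
    -- it suffices to treat the case where the maximum lies in `B`
    have key : ∀ (A B : Finset ℤ), A.card + B.card ≤ n + 1 →
        (∀ i ∈ A, ∀ j ∈ B, (1 : ℤ) < |i - j|) → ∀ M ∈ B, (∀ k ∈ A ∪ B, k ≤ M) →
        IndepFun (fun (x : ℤ → S) (a : A) => x a) (fun (x : ℤ → S) (b : B) => x b) μ := by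
      intro A B hc hAB M hM hmax
      classical
      have hex : ∃ k : ℕ, M - (k : ℤ) ∉ A ∪ B := by
        by_contra hcon
        push Not at hcon
        have hinj : Function.Injective (fun k : ℕ => M - (k : ℤ)) := by
          intro a b hab
          have : M - (a : ℤ) = M - b := hab
          omega
        exact Set.infinite_of_injective_forall_mem hinj (s := ((A ∪ B : Finset ℤ) : Set ℤ))
          (fun k => by exact_mod_cast hcon k) (Finset.finite_toSet _)
      set n0 := Nat.find hex with hn0
      have hn0spec : M - (n0 : ℤ) ∉ A ∪ B := Nat.find_spec hex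
      have hn0min : ∀ k : ℕ, k < n0 → M - (k : ℤ) ∈ A ∪ B := fun k hk => by
        by_contra hcon
        exact Nat.find_min hex hk hcon
      have hrunB : ∀ k : ℕ, k < n0 → M - (k : ℤ) ∈ B := by
        intro k
        induction k with
        | zero => intro _; simpa using hM
        | succ k ihk =>
          intro hk
          have h1 := ihk (by omega)
          have h2 := hn0min (k + 1) hk
          rcases Finset.mem_union.1 h2 with h3 | h3
          · have := hAB _ h3 _ h1
            have e : M - ((k + 1 : ℕ) : ℤ) - (M - (k : ℤ)) = -1 := by push_cast; ring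
            rw [e] at this
            simp at this
          · exact h3
      set i := M - (n0 : ℤ) with hi
      have hn0pos : 0 < n0 := by
        rcases Nat.eq_zero_or_pos n0 with h0 | h0
        · exfalso; apply hn0spec
          rw [hi, h0]; simp [hM]
        · exact h0
      have hAi : ∀ a ∈ A, a < i := by
        intro a ha
        by_contra hcon
        push Not at hcon
        have hle : a ≤ M := hmax a (Finset.mem_union_left _ ha)
        have hne : a ≠ i := fun e => hn0spec (by rw [← e]; exact Finset.mem_union_left _ ha)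
        have hB := hrunB (M - a).toNat (by omega)
        have e : M - ((M - a).toNat : ℤ) = a := by omega
        rw [e] at hB
        have := hAB a ha a hB
        simp at this
      have hBi : i ∉ B := fun hh => hn0spec (Finset.mem_union_right _ hh)
      set B' := B.filter (fun b => b < i) with hB'
      set B'' := B.filter (fun b => i < b) with hB''
      have hcard : A.card + B'.card ≤ n := by
        have : B'.card < B.card := by
          apply Finset.card_lt_card
          refine ⟨Finset.filter_subset _ _, fun hsub => ?_⟩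
          have := hsub hM
          rw [hB', Finset.mem_filter] at this
          omega
        omega
      have hUV := ih A B' hcard (fun a ha b hb => hAB a ha b (Finset.mem_filter.1 hb).1)
      let F1 : (Iio i → S) → (A → S) × (B' → S) := fun v =>
        (fun a => v ⟨a, hAi a a.2⟩, fun b => v ⟨b, (Finset.mem_filter.1 b.2).2⟩)
      let F2 : (Ioi i → S) → (B'' → S) := fun v => fun b => v ⟨b, (Finset.mem_filter.1 b.2).2⟩
      have hUVW : IndepFun (fun x : ℤ → S => ((fun a : A => x a), (fun b : B' => x b)))
          (fun x : ℤ → S => (fun b : B'' => x b)) μ :=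
        (h i).comp (φ := F1) (ψ := F2) (by fun_prop) (by fun_prop)
      have h3 := indep3 (by fun_prop) (by fun_prop) (by fun_prop) hUV hUVW
      let F3 : (B' → S) × (B'' → S) → (B → S) := fun p b =>
        if hb : (b : ℤ) < i then p.1 ⟨b, Finset.mem_filter.2 ⟨b.2, hb⟩⟩
        else p.2 ⟨b, Finset.mem_filter.2 ⟨b.2, by
          rcases lt_or_eq_of_le (not_lt.1 hb) with h1 | h1
          · exact h1
          · exact absurd (h1 ▸ b.2) hBi⟩⟩
      have mF3 : Measurable F3 := by
        rw [measurable_pi_iff]
        intro b
        by_cases hb : (b : ℤ) < i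
        · simp only [F3, hb, dite_true]; fun_prop
        · simp only [F3, hb, dite_false]; fun_prop
      have h4 := h3.comp (φ := id) (ψ := F3) measurable_id mF3
      have e : F3 ∘ (fun x : ℤ → S => ((fun b : B' => x b), (fun b : B'' => x b))) =
          fun (x : ℤ → S) (b : B) => x b := by
        funext x b
        by_cases hb : (b : ℤ) < i
        · simp [F3, hb]
        · simp [F3, hb]
      rw [e] at h4
      exact h4
    intro A B hc hAB
    rcases (A ∪ B).eq_empty_or_nonempty with he | hne
    · have hA : A = ∅ := (Finset.union_eq_empty.1 he).1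
      subst hA
      exact indepFun_of_subsingleton fun ω ω' => funext fun a => absurd a.2 (Finset.notMem_empty _)
    · have hM := (A ∪ B).max'_mem hne
      have hmax : ∀ k ∈ A ∪ B, k ≤ (A ∪ B).max' hne := fun k hk => Finset.le_max' _ _ hk
      rcases Finset.mem_union.1 hM with h1 | h1
      · refine (key B A (by omega) (fun i hi j hj => ?_) _ h1 ?_).symm
        · rw [abs_sub_comm]; exact hAB j hj i hi
        · intro k hk; rw [Finset.union_comm] at hk; exact hmax k hk
      · exact key A B hc hAB _ h1 hmax

theorem kdep_of_oneside (μ : Measure (ℤ → S)) [IsProbabilityMeasure μ]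
    (h : ∀ i : ℤ, IndepFun (fun (x : ℤ → S) (a : Iio i) => x a)
      (fun (x : ℤ → S) (b : Ioi i) => x b) μ) : IsKDependent 1 μ := by
  classical
  intro A B hAB
  refine IndepFun.process_indepFun_process (X := fun (a : A) (x : ℤ → S) => x a)
    (Y := fun (b : B) (x : ℤ → S) => x b) (fun a => by fun_prop) (fun b => by fun_prop) ?_
  intro I J
  have h1 := finite_case μ h _ (I.map (Function.Embedding.subtype _))
    (J.map (Function.Embedding.subtype _)) le_rfl (by
      intro i hi j hj
      simp only [Finset.mem_map, Function.Embedding.subtype_apply] at hi hj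
      obtain ⟨a, -, rfl⟩ := hi
      obtain ⟨b, -, rfl⟩ := hj
      have := hAB a a.2 b b.2
      exact_mod_cast this)
  let F1 : (I.map (Function.Embedding.subtype (· ∈ A)) → S) → (I → S) := fun v a =>
    v ⟨a, Finset.mem_map.2 ⟨a, a.2, rfl⟩⟩
  let F2 : (J.map (Function.Embedding.subtype (· ∈ B)) → S) → (J → S) := fun v a =>
    v ⟨a, Finset.mem_map.2 ⟨a, a.2, rfl⟩⟩
  exact h1.comp (φ := F1) (ψ := F2) (by fun_prop) (by fun_prop)

end Pool.Agent.Lib.MP_ba6fcf_pr
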