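import Mathlib
import Pool.Agent.Lib.MP_ba6fcf_pr.Coding
import Pool.Agent.Lib.MP_ba6fcf_pr.Chain
import Pool.Agent.Lib.MP_ba6fcf_pr.KDep

open MeasureTheory ProbabilityTheory Set
open scoped ENNReal

namespace Pool.Agent.Lib.MP_ba6fcf_pr

/-- Bernoulli law with parameter `1/(j+2)`. -/
noncomputable def bern (j : ℕ) : Measure Bool :=
  ((j : ℝ≥0∞) + 2)⁻¹ • Measure.dirac true + (1 - ((j : ℝ≥0∞) + 2)⁻¹) • Measure.dirac false

lemma inv_le_one' (j : ℕ) : ((j : ℝ≥0∞) + 2)⁻¹ ≤ 1 := by
  rw [ENNReal.inv_le_one]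
  calc (1 : ℝ≥0∞) ≤ 2 := by norm_num
    _ ≤ (j : ℝ≥0∞) + 2 := le_add_self

instance (j : ℕ) : IsProbabilityMeasure (bern j) := by
  constructor
  simp only [bern, Measure.add_apply, Measure.smul_apply, measure_univ, smul_eq_mul, mul_one]
  exact add_tsub_cancel_of_le (inv_le_one' j)

lemma bern_true (j : ℕ) : bern j {true} = ((j : ℝ≥0∞) + 2)⁻¹ := by
  simp [bern]

lemma bern_false (j : ℕ) : bern j {false} = 1 - ((j : ℝ≥0∞) + 2)⁻¹ := by
  simp [bern]

/-- Fair bit. -/
noncomputable abbrev fair : Measure Bool := bern 0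

lemma fair_xor (c : Bool) : fair.map (fun b => b ^^ c) = fair := by
  have h : (1 : ℝ≥0∞) - 2⁻¹ = 2⁻¹ := by
    rw [ENNReal.one_sub_inv_two]
  have hm : Measurable (fun b : Bool => b ^^ c) := measurable_of_countable _
  unfold fair bern
  rw [Measure.map_add _ _ hm, Measure.map_smul, Measure.map_smul,
    Measure.map_dirac' hm, Measure.map_dirac' hm]
  cases c
  · simp
  · simp only [CharP.cast_eq_zero, zero_add, h, Bool.xor_true, Bool.not_true, Bool.not_false]
    rw [add_comm]

lemma fair_not : fair.map (fun b => !b) = fair := by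
  have := fair_xor true
  simpa using this

/-- Law of the type at a site, scale `j`. -/
noncomputable def tyM (j : ℕ) : Measure Ty := (bern j).prod (fair.prod fair)

instance (j : ℕ) : IsProbabilityMeasure (tyM j) := by unfold tyM; infer_instance

/-- Law of the types at a site. -/
noncomputable def tau0 : Measure (ℕ → Ty) := Measure.infinitePi tyM

instance : IsProbabilityMeasure tau0 := by unfold tau0; infer_instance

/-- Law of the link bits at a link. -/
noncomputable def gam0 : Measure (ℕ → Bool) := iid fair ℕ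

instance : IsProbabilityMeasure gam0 := by unfold gam0; infer_instance

/-- The base measure. -/
noncomputable def B : Measure ((ℤ → ℕ → Ty) × (ℤ → ℕ → Bool)) := (iid tau0 ℤ).prod (iid gam0 ℤ)

instance : IsProbabilityMeasure B := by unfold B; infer_instance

/-- The process as a function of types and link bits. -/
noncomputable def Phi (p : (ℤ → ℕ → Ty) × (ℤ → ℕ → Bool)) : ℤ → ℕ → Cell :=
  fun k j => cell (fun l => p.1 l j) (fun l => p.2 l j) k

/-- The law of the process. -/
noncomputable def mu : Measure (ℤ → ℕ → Cell) := B.map Phi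

lemma measurableSet_firstL (q : Ty → Bool) (b : ℤ) : MeasurableSet {τ : ℤ → Ty | FirstL τ q b} := by
  have e : {τ : ℤ → Ty | FirstL τ q b} = ⋃ n : ℕ, ({τ : ℤ → Ty | (τ (b - 1 - n)).1 = true} ∩
      ((⋂ k : ℕ, {τ : ℤ → Ty | k < n → (τ (b - 1 - k)).1 = false}) ∩
        {τ : ℤ → Ty | q (τ (b - 1 - n)) = true})) := by
    ext τ; simp [FirstL]
  rw [e]
  refine MeasurableSet.iUnion fun n => ?_
  have hc : ∀ (k : ℤ) (f : Ty → Bool) (c : Bool), MeasurableSet {τ : ℤ → Ty | f (τ k) = c} := by
    intro k f c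
    exact ((measurable_of_countable f).comp (measurable_pi_apply k)) (measurableSet_singleton c)
  refine (hc _ (fun t => t.1) _).inter (MeasurableSet.inter (MeasurableSet.iInter fun k => ?_)
    (hc _ q _))
  by_cases hk : k < n
  · simp only [hk, true_imp_iff]; exact hc _ (fun t => t.1) _
  · simp [hk]

lemma measurableSet_firstR (q : Ty → Bool) (b : ℤ) : MeasurableSet {τ : ℤ → Ty | FirstR τ q b} := by
  have e : {τ : ℤ → Ty | FirstR τ q b} = ⋃ n : ℕ, ({τ : ℤ → Ty | (τ (b + n)).1 = true} ∩
      ((⋂ k : ℕ, {τ : ℤ → Ty | k < n → (τ (b + k)).1 = false}) ∩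
        {τ : ℤ → Ty | q (τ (b + n)) = true})) := by
    ext τ; simp [FirstR]
  rw [e]
  refine MeasurableSet.iUnion fun n => ?_
  have hc : ∀ (k : ℤ) (f : Ty → Bool) (c : Bool), MeasurableSet {τ : ℤ → Ty | f (τ k) = c} := by
    intro k f c
    exact ((measurable_of_countable f).comp (measurable_pi_apply k)) (measurableSet_singleton c)
  refine (hc _ (fun t => t.1) _).inter (MeasurableSet.inter (MeasurableSet.iInter fun k => ?_)
    (hc _ q _))
  by_cases hk : k < n
  · simp only [hk, true_imp_iff]; exact hc _ (fun t => t.1) _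
  · simp [hk]

lemma measurable_HH (b : ℤ) : Measurable (fun τ : ℤ → Ty => HH τ b) := by
  refine measurable_to_bool ?_
  have : (fun τ : ℤ → Ty => HH τ b) ⁻¹' {true} = {τ | FirstL τ (fun t => t.2.1) b} := by
    ext τ; simp [HH]
  rw [this]; exact measurableSet_firstL _ _

lemma measurable_YY (b : ℤ) : Measurable (fun τ : ℤ → Ty => YY τ b) := by
  refine measurable_to_bool ?_
  have : (fun τ : ℤ → Ty => YY τ b) ⁻¹' {true} = {τ | FirstR τ (fun t => t.2.2) b} := by
    ext τ; simp [YY]
  rw [this]; exact measurableSet_firstR _ _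

lemma measurable_cell (k : ℤ) :
    Measurable (fun p : (ℤ → Ty) × (ℤ → Bool) => cell p.1 p.2 k) := by
  have h : Measurable (fun p : (ℤ → Ty) × (ℤ → Bool) =>
      (p.1 k, HH p.1 k, p.2 k, p.2 (k + 1))) :=
    ((measurable_pi_apply k).comp measurable_fst).prodMk
      (((measurable_HH k).comp measurable_fst).prodMk
        (((measurable_pi_apply k).comp measurable_snd).prodMk
          ((measurable_pi_apply (k + 1)).comp measurable_snd)))
  have h2 : Measurable (fun r : Ty × Bool × Bool × Bool =>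
      ((r.1.1, r.1.2.1, r.1.2.2,
        if r.1.1 then (r.2.2.1 ^^ (r.2.1 && r.1.2.2)) else (r.2.2.1 ^^ r.2.2.2),
        r.1.1 && r.2.2.2) : Cell)) := measurable_of_countable _
  exact h2.comp h

lemma measurable_Phi : Measurable Phi := by
  rw [measurable_pi_iff]; intro k
  rw [measurable_pi_iff]; intro j
  exact (measurable_cell k).comp ((show Measurable
    (fun p : (ℤ → ℕ → Ty) × (ℤ → ℕ → Bool) => ((fun l => p.1 l j), (fun l => p.2 l j)))
    by fun_prop))

instance : IsProbabilityMeasure mu := Measure.isProbabilityMeasure_map measurable_Phi.aemeasurable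

/-! ### Stationarity -/

lemma HH_tr (τ : ℤ → Ty) (i b : ℤ) : HH (fun l => τ (l + i)) b = HH τ (b + i) := by
  unfold HH
  rw [Bool.eq_iff_iff]
  simp only [decide_eq_true_eq]
  unfold FirstL
  have e : ∀ n : ℕ, b - 1 - (n : ℤ) + i = b + i - 1 - n := fun n => by ring
  simp only [e]

lemma cell_tr (τ : ℤ → Ty) (g : ℤ → Bool) (i k : ℤ) :
    cell (fun l => τ (l + i)) (fun l => g (l + i)) k = cell τ g (k + i) := by
  unfold cell
  simp only [HH_tr, show k + 1 + i = k + i + 1 by ring]

lemma mu_stationary : IsStationary mu := by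
  have hm : Measurable (shift : (ℤ → ℕ → Cell) → _) := by unfold shift; fun_prop
  have hp : MeasurePreserving
      (fun p : (ℤ → ℕ → Ty) × (ℤ → ℕ → Bool) => ((tr 1 p.1, tr 1 p.2) :
        (ℤ → ℕ → Ty) × (ℤ → ℕ → Bool))) B B :=
    (tr_preserving tau0 1).prod (tr_preserving gam0 1)
  unfold IsStationary mu
  rw [Measure.map_map hm measurable_Phi]
  have e : (shift ∘ Phi) = Phi ∘ (fun p : (ℤ → ℕ → Ty) × (ℤ → ℕ → Bool) =>
      ((tr 1 p.1, tr 1 p.2) : (ℤ → ℕ → Ty) × (ℤ → ℕ → Bool))) := by
    funext p k j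
    simp only [Function.comp, shift, Phi, tr]
    rw [← cell_tr (fun l => p.1 l j) (fun l => p.2 l j) 1 k]
  rw [e, ← Measure.map_map measurable_Phi hp.measurable, hp.map_eq]

/-! ### Gauge transformation -/

/-- The gauge transformation of the base space at site `i`. -/
noncomputable def Gm (i : ℤ) (p : (ℤ → ℕ → Ty) × (ℤ → ℕ → Bool)) :
    (ℤ → ℕ → Ty) × (ℤ → ℕ → Bool) :=
  (p.1, fun k j => p.2 k j ^^ gau i (fun l => p.1 l j) k)

lemma measurable_gau (i k : ℤ) : Measurable (fun τ : ℤ → Ty => gau i τ k) := by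
  have h1 : Measurable (fun τ : ℤ → Ty => (HH τ (i + 1), YY τ (i + 1))) :=
    (measurable_HH _).prodMk (measurable_YY _)
  have hset : MeasurableSet {τ : ℤ → Ty | i < k ∧ ∀ l, i < l → l < k → (τ l).1 = false} := by
    have e : {τ : ℤ → Ty | i < k ∧ ∀ l, i < l → l < k → (τ l).1 = false} =
        {τ : ℤ → Ty | i < k} ∩ ⋂ l : ℤ, {τ : ℤ → Ty | i < l → l < k → (τ l).1 = false} := by
      ext τ; simp
    rw [e]
    refine (MeasurableSet.const _).inter (MeasurableSet.iInter fun l => ?_)
    by_cases h1 : i < l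
    · by_cases h2 : l < k
      · simp only [h1, h2, true_imp_iff]
        exact ((measurable_of_countable (fun t : Ty => t.1)).comp (measurable_pi_apply l))
          (measurableSet_singleton false)
      · simp [h2]
    · simp [h1]
  refine measurable_to_bool ?_
  have e : (fun τ : ℤ → Ty => gau i τ k) ⁻¹' {true} =
      {τ : ℤ → Ty | i < k ∧ ∀ l, i < l → l < k → (τ l).1 = false} ∩
      (fun τ : ℤ → Ty => (HH τ (i + 1), YY τ (i + 1))) ⁻¹' {(true, true)} := by
    ext τ
    simp only [mem_preimage, mem_singleton_iff, gau, Bool.and_eq_true, decide_eq_true_eq,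
      mem_inter_iff, mem_setOf_eq, Prod.mk.injEq]
  rw [e]
  exact hset.inter (h1 (measurableSet_singleton _))

lemma gam_translate (D : ℤ → ℕ → Bool) :
    (iid gam0 ℤ).map (fun g k j => g k j ^^ D k j) = iid gam0 ℤ := by
  have h1 : ∀ k : ℤ, gam0.map (fun (h : ℕ → Bool) j => h j ^^ D k j) = gam0 := by
    intro k
    unfold gam0 iid
    rw [Measure.infinitePi_map_pi (fun _ : ℕ => fair) (f := fun j b => b ^^ D k j)
      (fun j => measurable_of_countable _)]
    congr 1
    funext j
    exact fair_xor _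
  unfold iid
  rw [Measure.infinitePi_map_pi (fun _ : ℤ => gam0) (f := fun k (h : ℕ → Bool) j => h j ^^ D k j)]
  · congr 1
    funext k
    exact h1 k
  · intro k
    rw [measurable_pi_iff]; intro j
    exact (measurable_of_countable (fun b : Bool => b ^^ D k j)).comp (measurable_pi_apply j)

lemma Gm_preserving (i : ℤ) : MeasurePreserving (Gm i) B B := by
  have hg : Measurable (Function.uncurry (fun (t : ℤ → ℕ → Ty) (g : ℤ → ℕ → Bool) =>
      (fun k j => g k j ^^ gau i (fun l => t l j) k : ℤ → ℕ → Bool))) := by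
    rw [measurable_pi_iff]; intro k
    rw [measurable_pi_iff]; intro j
    have h1 : Measurable (fun p : (ℤ → ℕ → Ty) × (ℤ → ℕ → Bool) =>
        (p.2 k j, gau i (fun l => p.1 l j) k)) := by
      refine Measurable.prodMk (by fun_prop) ?_
      exact (measurable_gau i k).comp (by fun_prop)
    exact (measurable_of_countable (fun q : Bool × Bool => q.1 ^^ q.2)).comp h1
  exact MeasurePreserving.skew_product (MeasurePreserving.id (iid tau0 ℤ))
    (g := fun (t : ℤ → ℕ → Ty) (g : ℤ → ℕ → Bool) => fun k j => g k j ^^ gau i (fun l => t l j) k)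
    hg (ae_of_all _ fun t => gam_translate _)

/-! ### Independence of the past and the future -/

lemma indep_restrict {T : Type*} [MeasurableSpace T] (ν : Measure T) [IsProbabilityMeasure ν]
    (i : ℤ) : IndepFun (fun (x : ℤ → T) (a : Iic i) => x a) (fun (x : ℤ → T) (b : Ioi i) => x b)
      (iid ν ℤ) := by
  rw [indepFun_iff_map_prod_eq_prod_map_map
    (Measurable.aemeasurable (by fun_prop)) (Measurable.aemeasurable (by fun_prop))]
  have h := pair ν (fun a : Iic i => (a : ℤ)) (fun b : Ioi i => (b : ℤ)) (by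
    rintro (⟨a, ha⟩ | ⟨a, ha⟩) (⟨b, hb⟩ | ⟨b, hb⟩) h
    · simp only [Sum.elim_inl] at h; subst h; rfl
    · simp only [Sum.elim_inl, Sum.elim_inr] at h
      subst h
      exact absurd (Set.mem_Iic.1 ha) (not_le.2 (Set.mem_Ioi.1 hb))
    · simp only [Sum.elim_inl, Sum.elim_inr] at h
      subst h
      exact absurd (Set.mem_Iic.1 hb) (not_le.2 (Set.mem_Ioi.1 ha))
    · simp only [Sum.elim_inr] at h; subst h; rfl)
  rw [h.map_eq, (single ν (fun a : Iic i => (a : ℤ)) Subtype.val_injective).map_eq,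
    (single ν (fun a : Ioi i => (a : ℤ)) Subtype.val_injective).map_eq]

lemma indepFun_prod_prod {Ω₁ Ω₂ α β γ δ : Type*} [MeasurableSpace Ω₁] [MeasurableSpace Ω₂]
    [MeasurableSpace α] [MeasurableSpace β] [MeasurableSpace γ] [MeasurableSpace δ]
    {μ : Measure Ω₁} {ν : Measure Ω₂} [IsProbabilityMeasure μ] [IsProbabilityMeasure ν]
    {a : Ω₁ → α} {b : Ω₁ → β} {c : Ω₂ → γ} {d : Ω₂ → δ} (ma : Measurable a) (mb : Measurable b)
    (mc : Measurable c) (md : Measurable d) (hab : IndepFun a b μ) (hcd : IndepFun c d ν) :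
    IndepFun (fun p : Ω₁ × Ω₂ => (a p.1, c p.2)) (fun p : Ω₁ × Ω₂ => (b p.1, d p.2))
      (μ.prod ν) := by
  rw [indepFun_iff_map_prod_eq_prod_map_map (by fun_prop) (by fun_prop)]
  have e1 : (μ.prod ν).map (fun p : Ω₁ × Ω₂ => (a p.1, c p.2)) = (μ.map a).prod (ν.map c) :=
    (Measure.map_prod_map μ ν ma mc).symm
  have e2 : (μ.prod ν).map (fun p : Ω₁ × Ω₂ => (b p.1, d p.2)) = (μ.map b).prod (ν.map d) :=
    (Measure.map_prod_map μ ν mb md).symm
  have : IsProbabilityMeasure (μ.map a) := Measure.isProbabilityMeasure_map ma.aemeasurable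
  have : IsProbabilityMeasure (μ.map b) := Measure.isProbabilityMeasure_map mb.aemeasurable
  have : IsProbabilityMeasure (ν.map c) := Measure.isProbabilityMeasure_map mc.aemeasurable
  have : IsProbabilityMeasure (ν.map d) := Measure.isProbabilityMeasure_map md.aemeasurable
  rw [e1, e2]
  symm
  refine Measure.prod_eq_generateFrom generateFrom_prod generateFrom_prod isPiSystem_prod
    isPiSystem_prod ⟨fun _ => univ, fun _ => ?_, fun _ => measure_lt_top _ _, iUnion_const _⟩
    ⟨fun _ => univ, fun _ => ?_, fun _ => measure_lt_top _ _, iUnion_const _⟩ ?_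
  · exact ⟨univ, MeasurableSet.univ, univ, MeasurableSet.univ, univ_prod_univ⟩
  · exact ⟨univ, MeasurableSet.univ, univ, MeasurableSet.univ, univ_prod_univ⟩
  rintro _ ⟨A, hA, C, hC, rfl⟩ _ ⟨B', hB, D', hD, rfl⟩
  have hA : MeasurableSet A := hA
  have hC : MeasurableSet C := hC
  have hB : MeasurableSet B' := hB
  have hD : MeasurableSet D' := hD
  rw [Measure.map_apply (by fun_prop) ((hA.prod hC).prod (hB.prod hD)), Measure.prod_prod,
    Measure.prod_prod, Measure.map_apply ma hA, Measure.map_apply mb hB, Measure.map_apply mc hC,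
    Measure.map_apply md hD]
  have e3 : (fun p : Ω₁ × Ω₂ => ((a p.1, c p.2), (b p.1, d p.2))) ⁻¹' ((A ×ˢ C) ×ˢ (B' ×ˢ D')) =
      (a ⁻¹' A ∩ b ⁻¹' B') ×ˢ (c ⁻¹' C ∩ d ⁻¹' D') := by
    ext ⟨p, q⟩
    simp only [mem_preimage, mem_prod, mem_inter_iff]
    tauto
  rw [e3, Measure.prod_prod, hab.measure_inter_preimage_eq_mul A B' hA hB,
    hcd.measure_inter_preimage_eq_mul C D' hC hD]
  ring

/-- Extension from the left half-line. -/
def extL {T : Type*} (t0 : T) (i : ℤ) (v : Iic i → T) (k : ℤ) : T :=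
  if h : k ≤ i then v ⟨k, h⟩ else t0

/-- Extension from the right half-line. -/
def extR {T : Type*} (t0 : T) (i : ℤ) (v : Ioi i → T) (k : ℤ) : T :=
  if h : k ≤ i then t0 else v ⟨k, not_le.1 h⟩

lemma measurable_extL {T : Type*} [MeasurableSpace T] (t0 : T) (i : ℤ) :
    Measurable (extL t0 i) := by
  rw [measurable_pi_iff]; intro k
  by_cases h : k ≤ i
  · simp only [extL, h, dite_true]; fun_prop
  · simp only [extL, h, dite_false]; fun_prop

lemma measurable_extR {T : Type*} [MeasurableSpace T] (t0 : T) (i : ℤ) :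
    Measurable (extR t0 i) := by
  rw [measurable_pi_iff]; intro k
  by_cases h : k ≤ i
  · simp only [extR, h, dite_true]; fun_prop
  · simp only [extR, h, dite_false]; fun_prop

theorem mu_oneside (i : ℤ) : IndepFun (fun (x : ℤ → ℕ → Cell) (a : Iio i) => x a)
      (fun (x : ℤ → ℕ → Cell) (b : Ioi i) => x b) mu := by
  have hbase : IndepFun
      (fun p : (ℤ → ℕ → Ty) × (ℤ → ℕ → Bool) =>
        ((fun a : Iic i => p.1 a), (fun a : Iic i => p.2 a)))
      (fun p : (ℤ → ℕ → Ty) × (ℤ → ℕ → Bool) =>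
        ((fun b : Ioi i => p.1 b), (fun b : Ioi i => p.2 b))) B :=
    indepFun_prod_prod (by fun_prop) (by fun_prop) (by fun_prop) (by fun_prop)
      (indep_restrict tau0 i) (indep_restrict gam0 i)
  let FL : (Iic i → ℕ → Ty) × (Iic i → ℕ → Bool) → (Iio i → ℕ → Cell) := fun q a =>
    Phi (extL (fun _ => (true, false, false)) i q.1, extL (fun _ => false) i q.2) a
  let FR : (Ioi i → ℕ → Ty) × (Ioi i → ℕ → Bool) → (Ioi i → ℕ → Cell) := fun q a =>
    Phi (extR (fun _ => (true, false, false)) i q.1, extR (fun _ => false) i q.2) a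
  have mFL : Measurable FL := by
    rw [measurable_pi_iff]; intro a
    exact (measurable_pi_apply _).comp (measurable_Phi.comp
      (((measurable_extL _ i).comp measurable_fst).prodMk
        ((measurable_extL _ i).comp measurable_snd)))
  have mFR : Measurable FR := by
    rw [measurable_pi_iff]; intro a
    exact (measurable_pi_apply _).comp (measurable_Phi.comp
      (((measurable_extR _ i).comp measurable_fst).prodMk
        ((measurable_extR _ i).comp measurable_snd)))
  have h2 := hbase.comp mFL mFR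
  have mL0 : Measurable (fun p : (ℤ → ℕ → Ty) × (ℤ → ℕ → Bool) =>
        ((fun a : Iic i => p.1 a), (fun a : Iic i => p.2 a))) := by fun_prop
  have mR0 : Measurable (fun p : (ℤ → ℕ → Ty) × (ℤ → ℕ → Bool) =>
        ((fun b : Ioi i => p.1 b), (fun b : Ioi i => p.2 b))) := by fun_prop
  have h3 : IndepFun
      (fun p => (FL ∘ fun p : (ℤ → ℕ → Ty) × (ℤ → ℕ → Bool) =>
        ((fun a : Iic i => p.1 a), (fun a : Iic i => p.2 a))) (Gm i p))
      (fun p => (FR ∘ fun p : (ℤ → ℕ → Ty) × (ℤ → ℕ → Bool) =>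
        ((fun b : Ioi i => p.1 b), (fun b : Ioi i => p.2 b))) (Gm i p)) B := by
    have hcomp := h2
    rw [← (Gm_preserving i).map_eq] at hcomp
    rw [indepFun_iff_map_prod_eq_prod_map_map] at hcomp ⊢
    · rw [Measure.map_map ((mFL.comp mL0).prodMk (mFR.comp mR0)) (Gm_preserving i).measurable,
        Measure.map_map (mFL.comp mL0) (Gm_preserving i).measurable,
        Measure.map_map (mFR.comp mR0) (Gm_preserving i).measurable] at hcomp
      exact hcomp
    · exact ((mFL.comp mL0).comp (Gm_preserving i).measurable).aemeasurable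
    · exact ((mFR.comp mR0).comp (Gm_preserving i).measurable).aemeasurable
    · exact (mFL.comp mL0).aemeasurable
    · exact (mFR.comp mR0).aemeasurable
  have eL : (fun p => (FL ∘ fun p : (ℤ → ℕ → Ty) × (ℤ → ℕ → Bool) =>
        ((fun a : Iic i => p.1 a), (fun a : Iic i => p.2 a))) (Gm i p)) =
      (fun (x : ℤ → ℕ → Cell) (a : Iio i) => x a) ∘ Phi := by
    funext p a j
    have ha : (a : ℤ) < i := a.2
    simp only [Function.comp, FL, Phi, Gm]
    symm
    rw [cell_gauge_left i _ _ _ ha]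
    refine cell_congr _ _ _ _ _ (fun k hk => ?_) ?_ ?_
    · simp [extL, (hk.trans ha.le)]
    · simp [extL, ha.le]
    · simp [extL, show (a : ℤ) + 1 ≤ i by omega]
  have eR : (fun p => (FR ∘ fun p : (ℤ → ℕ → Ty) × (ℤ → ℕ → Bool) =>
        ((fun b : Ioi i => p.1 b), (fun b : Ioi i => p.2 b))) (Gm i p)) =
      (fun (x : ℤ → ℕ → Cell) (b : Ioi i) => x b) ∘ Phi := by
    funext p a j
    have ha : i < (a : ℤ) := a.2
    simp only [Function.comp, FR, Phi, Gm]
    symm
    rw [cell_gauge_right i _ _ _ ha]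
    refine cell_congr _ _ _ _ _ (fun k hk => ?_) ?_ ?_
    · by_cases hki : k ≤ i
      · simp [extR, tmod, hki]
      · simp [extR, tmod, hki]
    · simp [extR, show ¬ (a : ℤ) ≤ i by omega]
    · simp [extR, show ¬ (a : ℤ) + 1 ≤ i by omega]
  rw [eL, eR] at h3
  have mL : Measurable (fun (x : ℤ → ℕ → Cell) (a : Iio i) => x a) := by fun_prop
  have mR : Measurable (fun (x : ℤ → ℕ → Cell) (b : Ioi i) => x b) := by fun_prop
  rw [indepFun_iff_map_prod_eq_prod_map_map mL.aemeasurable mR.aemeasurable]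
  rw [indepFun_iff_map_prod_eq_prod_map_map (mL.comp measurable_Phi).aemeasurable
    (mR.comp measurable_Phi).aemeasurable] at h3
  unfold mu
  rw [Measure.map_map (mL.prodMk mR) measurable_Phi, Measure.map_map mL measurable_Phi,
    Measure.map_map mR measurable_Phi]
  exact h3

theorem mu_kdep : IsKDependent 1 mu := kdep_of_oneside mu mu_oneside

end Pool.Agent.Lib.MP_ba6fcf_pr
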