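import Mathlib
import Pool.Agent.Lib.MP_ba6fcf_pr.Process

open MeasureTheory ProbabilityTheory Set
open scoped ENNReal

namespace Pool.Agent.Lib.MP_ba6fcf_pr

/-- The types at scale `j`. -/
def evj (j : ℕ) (t : ℤ → ℕ → Ty) : ℤ → Ty := fun l => t l j

lemma evj_preserving (j : ℕ) : MeasurePreserving (evj j) (iid tau0 ℤ) (iid (tyM j) ℤ) := by
  refine ⟨by unfold evj; fun_prop, ?_⟩
  have h := Measure.infinitePi_map_pi (fun _ : ℤ => tau0) (Y := fun _ => Ty)
    (f := fun _ (h : ℕ → Ty) => h j) (fun _ => by fun_prop)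
  have h2 : tau0.map (fun h : ℕ → Ty => h j) = tyM j := Measure.infinitePi_map_eval tyM j
  unfold iid evj
  rw [h]
  congr 1
  funext _
  exact h2

lemma tyM_fst (j : ℕ) (c : Bool) : tyM j {t : Ty | t.1 = c} = bern j {c} := by
  have : {t : Ty | t.1 = c} = ({c} : Set Bool) ×ˢ (univ : Set (Bool × Bool)) := by
    ext ⟨a, b⟩; simp
  rw [this, tyM, Measure.prod_prod]; simp

lemma measurableSet_site (k : ℤ) (f : Ty → Bool) (c : Bool) :
    MeasurableSet {τ : ℤ → Ty | f (τ k) = c} :=
  ((measurable_of_countable f).comp (measurable_pi_apply k)) (measurableSet_singleton c)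

lemma site_cut (j : ℕ) (k : ℤ) :
    (iid (tyM j) ℤ) {τ | (τ k).1 = true} = ((j : ℝ≥0∞) + 2)⁻¹ := by
  have h := (measurePreserving_eval_infinitePi (fun _ : ℤ => tyM j) k)
  have h2 := h.measure_preimage (s := {t : Ty | t.1 = true})
    (MeasurableSet.of_discrete.nullMeasurableSet)
  rw [tyM_fst, bern_true] at h2
  exact h2

lemma no_cut_null (j : ℕ) (f : ℕ → ℤ) (hf : Function.Injective f) :
    (iid (tyM j) ℤ) {τ | ∀ k : ℕ, (τ (f k)).1 = false} = 0 := by
  have hp := single (tyM j) f hf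
  have hm : MeasurableSet {w : ℕ → Ty | ∀ k : ℕ, (w k).1 = false} := by
    have e : {w : ℕ → Ty | ∀ k : ℕ, (w k).1 = false} = ⋂ k, {w : ℕ → Ty | (w k).1 = false} := by
      ext; simp
    rw [e]
    refine MeasurableSet.iInter fun k => ?_
    exact ((measurable_of_countable (fun t : Ty => t.1)).comp (measurable_pi_apply k))
      (measurableSet_singleton false)
  have e : {τ : ℤ → Ty | ∀ k : ℕ, (τ (f k)).1 = false} =
      (fun (τ : ℤ → Ty) (k : ℕ) => τ (f k)) ⁻¹' {w | ∀ k : ℕ, (w k).1 = false} := rfl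
  rw [e, hp.measure_preimage hm.nullMeasurableSet]
  have hlt : (1 : ℝ≥0∞) - ((j : ℝ≥0∞) + 2)⁻¹ < 1 := by
    apply ENNReal.sub_lt_self (by simp) (by simp)
    rw [ENNReal.inv_ne_zero]
    exact ENNReal.add_ne_top.2 ⟨ENNReal.natCast_ne_top j, by simp⟩
  have hbound : ∀ n : ℕ, (iid (tyM j) ℕ) {w | ∀ k : ℕ, (w k).1 = false} ≤
      (1 - ((j : ℝ≥0∞) + 2)⁻¹) ^ n := by
    intro n
    calc (iid (tyM j) ℕ) {w | ∀ k : ℕ, (w k).1 = false}
        ≤ (iid (tyM j) ℕ) (Set.pi (Finset.range n : Set ℕ) (fun _ => {t : Ty | t.1 = false})) := by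
          refine measure_mono fun w hw => ?_
          intro k _
          exact hw k
      _ = (1 - ((j : ℝ≥0∞) + 2)⁻¹) ^ n := by
          rw [Measure.infinitePi_pi _ (fun _ _ => MeasurableSet.of_discrete)]
          simp only [tyM_fst, bern_false, Finset.prod_const, Finset.card_range]
  refine le_antisymm ?_ (zero_le)
  exact ge_of_tendsto' (ENNReal.tendsto_pow_atTop_nhds_zero_of_lt_one hlt) hbound

/-- Flip of a coordinate `q` which keeps the cut flag and the law. -/
structure IsFlip (j : ℕ) (q : Ty → Bool) (f : Ty → Ty) : Prop where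
  fst : ∀ t, (f t).1 = t.1
  flip : ∀ t, q (f t) = !(q t)
  map_eq : (tyM j).map f = tyM j

lemma flip_x (j : ℕ) : IsFlip j (fun t => t.2.1) (fun t => (t.1, !t.2.1, t.2.2)) := by
  refine ⟨fun _ => rfl, fun _ => rfl, ?_⟩
  have h1 : (fair.prod fair).map (Prod.map (fun b => !b) id) = fair.prod fair := by
    rw [← Measure.map_prod_map _ _ (measurable_of_countable _) measurable_id, fair_not,
      Measure.map_id]
  have h2 : (tyM j).map (Prod.map id (Prod.map (fun b => !b) id)) = tyM j := by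
    unfold tyM
    rw [← Measure.map_prod_map _ _ measurable_id (measurable_of_countable _), h1, Measure.map_id]
  exact h2

lemma flip_y (j : ℕ) : IsFlip j (fun t => t.2.2) (fun t => (t.1, t.2.1, !t.2.2)) := by
  refine ⟨fun _ => rfl, fun _ => rfl, ?_⟩
  have h1 : (fair.prod fair).map (Prod.map id (fun b => !b)) = fair.prod fair := by
    rw [← Measure.map_prod_map _ _ measurable_id (measurable_of_countable _), fair_not,
      Measure.map_id]
  have h2 : (tyM j).map (Prod.map id (Prod.map id (fun b => !b))) = tyM j := by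
    unfold tyM
    rw [← Measure.map_prod_map _ _ measurable_id (measurable_of_countable _), h1, Measure.map_id]
  exact h2

lemma flip_preserving {j : ℕ} {q : Ty → Bool} {f : Ty → Ty} (hf : IsFlip j q f) :
    MeasurePreserving (fun (τ : ℤ → Ty) l => f (τ l)) (iid (tyM j) ℤ) (iid (tyM j) ℤ) := by
  have hm : Measurable (fun (τ : ℤ → Ty) l => f (τ l)) := by
    rw [measurable_pi_iff]; intro l
    exact (measurable_of_countable f).comp (measurable_pi_apply l)
  refine ⟨hm, ?_⟩
  have h := Measure.infinitePi_map_pi (fun _ : ℤ => tyM j) (Y := fun _ => Ty)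
    (f := fun _ => f) (fun _ => measurable_of_countable f)
  unfold iid
  rw [h]
  congr 1
  funext _
  exact hf.map_eq

lemma half_of_disjoint {Ω : Type*} [MeasurableSpace Ω] (μ : Measure Ω) [IsProbabilityMeasure μ]
    {E E' N : Set Ω} (hE' : MeasurableSet E')
    (hd : Disjoint E E') (heq : μ E' = μ E) (hN : μ N = 0)
    (hcov : Eᶜ ⊆ E' ∪ N) : μ E ≤ 1 / 2 ∧ μ Eᶜ ≤ 1 / 2 := by
  have h1 : μ E + μ E ≤ 1 := by
    calc μ E + μ E = μ E + μ E' := by rw [heq]
      _ = μ (E ∪ E') := (measure_union hd hE').symm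
      _ ≤ 1 := prob_le_one
  have h2 : μ E ≤ 1 / 2 := by
    rw [ENNReal.le_div_iff_mul_le (by simp) (by simp), mul_two]
    exact h1
  refine ⟨h2, ?_⟩
  calc μ Eᶜ ≤ μ (E' ∪ N) := measure_mono hcov
    _ ≤ μ E' + μ N := measure_union_le _ _
    _ = μ E := by rw [hN, add_zero, heq]
    _ ≤ 1 / 2 := h2

lemma firstL_unique {τ : ℤ → Ty} {q q' : Ty → Bool} {b : ℤ} (h : FirstL τ q b)
    (h' : FirstL τ q' b) : ∃ t, q t = true ∧ q' t = true := by
  obtain ⟨n, h1, h2, h3⟩ := h
  obtain ⟨n', h1', h2', h3'⟩ := h'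
  have : n = n' := by
    rcases lt_trichotomy n n' with hlt | heq | hgt
    · rw [h2' n hlt] at h1; exact absurd h1 (by simp)
    · exact heq
    · rw [h2 n' hgt] at h1'; exact absurd h1' (by simp)
  subst this
  exact ⟨_, h3, h3'⟩

lemma firstR_unique {τ : ℤ → Ty} {q q' : Ty → Bool} {b : ℤ} (h : FirstR τ q b)
    (h' : FirstR τ q' b) : ∃ t, q t = true ∧ q' t = true := by
  obtain ⟨n, h1, h2, h3⟩ := h
  obtain ⟨n', h1', h2', h3'⟩ := h'
  have : n = n' := by
    rcases lt_trichotomy n n' with hlt | heq | hgt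
    · rw [h2' n hlt] at h1; exact absurd h1 (by simp)
    · exact heq
    · rw [h2 n' hgt] at h1'; exact absurd h1' (by simp)
  subst this
  exact ⟨_, h3, h3'⟩

lemma firstL_half {j : ℕ} {q : Ty → Bool} {f : Ty → Ty} (hf : IsFlip j q f) (b : ℤ) :
    (iid (tyM j) ℤ) {τ | FirstL τ q b} ≤ 1 / 2 ∧ (iid (tyM j) ℤ) {τ | FirstL τ q b}ᶜ ≤ 1 / 2 := by
  have e : ∀ τ : ℤ → Ty, FirstL (fun l => f (τ l)) q b ↔ FirstL τ (fun t => !(q t)) b := by
    intro τ; unfold FirstL; simp only [hf.fst, hf.flip]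
  refine half_of_disjoint _ (E' := (fun (τ : ℤ → Ty) l => f (τ l)) ⁻¹' {τ | FirstL τ q b})
    (N := {τ | ∀ k : ℕ, (τ (b - 1 - k)).1 = false})
    ((flip_preserving hf).measurable (measurableSet_firstL q b)) ?_ ?_ ?_ ?_
  · rw [Set.disjoint_left]
    intro τ h1 h2
    have h2' : FirstL τ (fun t => !(q t)) b := (e τ).1 h2
    obtain ⟨t, ht1, ht2⟩ := firstL_unique h1 h2'
    simp [ht1] at ht2
  · exact (flip_preserving hf).measure_preimage (measurableSet_firstL q b).nullMeasurableSet
  · exact no_cut_null j (fun k => b - 1 - k) (fun a c h => by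
      have : b - 1 - (a : ℤ) = b - 1 - c := h
      omega)
  · intro τ hτ
    by_cases hN : ∀ k : ℕ, (τ (b - 1 - k)).1 = false
    · exact Or.inr hN
    · left
      push Not at hN
      obtain ⟨n, hn, hk⟩ := exists_first (fun n => (τ (b - 1 - n)).1) (by
        obtain ⟨k, hk⟩ := hN
        exact ⟨k, by simpa using hk⟩)
      change FirstL (fun l => f (τ l)) q b
      rw [e]
      refine ⟨n, hn, hk, ?_⟩
      rcases hq : q (τ (b - 1 - n)) with _ | _
      · change (!(q (τ (b - 1 - n)))) = true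
        rw [hq]; rfl
      · exact absurd ⟨n, hn, hk, hq⟩ hτ

lemma firstR_half {j : ℕ} {q : Ty → Bool} {f : Ty → Ty} (hf : IsFlip j q f) (b : ℤ) :
    (iid (tyM j) ℤ) {τ | FirstR τ q b} ≤ 1 / 2 ∧ (iid (tyM j) ℤ) {τ | FirstR τ q b}ᶜ ≤ 1 / 2 := by
  have e : ∀ τ : ℤ → Ty, FirstR (fun l => f (τ l)) q b ↔ FirstR τ (fun t => !(q t)) b := by
    intro τ; unfold FirstR; simp only [hf.fst, hf.flip]
  refine half_of_disjoint _ (E' := (fun (τ : ℤ → Ty) l => f (τ l)) ⁻¹' {τ | FirstR τ q b})
    (N := {τ | ∀ k : ℕ, (τ (b + k)).1 = false})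
    ((flip_preserving hf).measurable (measurableSet_firstR q b)) ?_ ?_ ?_ ?_
  · rw [Set.disjoint_left]
    intro τ h1 h2
    have h2' : FirstR τ (fun t => !(q t)) b := (e τ).1 h2
    obtain ⟨t, ht1, ht2⟩ := firstR_unique h1 h2'
    simp [ht1] at ht2
  · exact (flip_preserving hf).measure_preimage (measurableSet_firstR q b).nullMeasurableSet
  · exact no_cut_null j (fun k => b + k) (fun a c h => by
      have : b + (a : ℤ) = b + c := h
      omega)
  · intro τ hτ
    by_cases hN : ∀ k : ℕ, (τ (b + k)).1 = false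
    · exact Or.inr hN
    · left
      push Not at hN
      obtain ⟨n, hn, hk⟩ := exists_first (fun n => (τ (b + n)).1) (by
        obtain ⟨k, hk⟩ := hN
        exact ⟨k, by simpa using hk⟩)
      change FirstR (fun l => f (τ l)) q b
      rw [e]
      refine ⟨n, hn, hk, ?_⟩
      rcases hq : q (τ (b + n)) with _ | _
      · change (!(q (τ (b + n)))) = true
        rw [hq]; rfl
      · exact absurd ⟨n, hn, hk, hq⟩ hτ

lemma HH_half (j : ℕ) (b : ℤ) (c : Bool) : (iid (tyM j) ℤ) {τ | HH τ b = c} ≤ 1 / 2 := by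
  obtain ⟨h1, h2⟩ := firstL_half (flip_x j) b
  cases c
  · have e : {τ : ℤ → Ty | HH τ b = false} = {τ | FirstL τ (fun t => t.2.1) b}ᶜ := by
      ext τ; simp [HH]
    rw [e]; exact h2
  · have e : {τ : ℤ → Ty | HH τ b = true} = {τ | FirstL τ (fun t => t.2.1) b} := by
      ext τ; simp [HH]
    rw [e]; exact h1

lemma YY_half (j : ℕ) (b : ℤ) (c : Bool) : (iid (tyM j) ℤ) {τ | YY τ b = c} ≤ 1 / 2 := by
  obtain ⟨h1, h2⟩ := firstR_half (flip_y j) b
  cases c
  · have e : {τ : ℤ → Ty | YY τ b = false} = {τ | FirstR τ (fun t => t.2.2) b}ᶜ := by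
      ext τ; simp [YY]
    rw [e]; exact h2
  · have e : {τ : ℤ → Ty | YY τ b = true} = {τ | FirstR τ (fun t => t.2.2) b} := by
      ext τ; simp [YY]
    rw [e]; exact h1

/-! ### The test functions at scale `j` -/

/-- types of a configuration at scale `j` -/
def typ (j : ℕ) (x : ℤ → ℕ → Cell) : ℤ → Ty := fun l => tyOf (x l j)

/-- left outcome -/
noncomputable def al (j : ℕ) (x : ℤ → ℕ → Cell) : ℝ := sg (AL (fun l => x l j))

/-- right outcome -/
noncomputable def be (j : ℕ) (x : ℤ → ℕ → Cell) : ℝ := sg (BE (fun l => x l j))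

/-- left setting -/
noncomputable def xf (j m : ℕ) (x : ℤ → ℕ → Cell) : Bool := HH (typ j x) (-(2 * m))

/-- right setting -/
noncomputable def yf (j m : ℕ) (x : ℤ → ℕ → Cell) : Bool := YY (typ j x) (2 * m + 1)

lemma typ_Phi (j : ℕ) (p : (ℤ → ℕ → Ty) × (ℤ → ℕ → Bool)) : typ j (Phi p) = evj j p.1 := rfl

lemma measurable_typ (j : ℕ) : Measurable (typ j) := by
  rw [measurable_pi_iff]; intro l
  exact (measurable_of_countable tyOf).comp
    ((measurable_pi_apply j).comp (measurable_pi_apply l))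

lemma measurable_xf (j m : ℕ) : Measurable (xf j m) := (measurable_HH _).comp (measurable_typ j)

lemma measurable_yf (j m : ℕ) : Measurable (yf j m) := (measurable_YY _).comp (measurable_typ j)

lemma measurable_acc (f : ℕ → (ℤ → Cell) → Bool) (hf : ∀ k, Measurable (f k)) (n : ℕ) :
    Measurable (fun x : ℤ → Cell => acc (fun k => f k x) n) := by
  induction n with
  | zero => simp only [acc]; exact measurable_const
  | succ n ih =>
    simp only [acc]
    exact (measurable_of_countable (fun r : Bool × Bool => r.1 ^^ r.2)).comp (ih.prodMk (hf n))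

lemma measurable_site (k : ℤ) (f : Cell → Bool) : Measurable (fun x : ℤ → Cell => f (x k)) :=
  (measurable_of_countable f).comp (measurable_pi_apply k)

lemma measurable_AL : Measurable AL := by
  refine measurable_to_bool ?_
  have e : AL ⁻¹' {true} = ⋃ n : ℕ, ({x : ℤ → Cell | (x (-1 - n)).1 = true} ∩
      ((⋂ k : ℕ, {x : ℤ → Cell | k < n → (x (-1 - k)).1 = false}) ∩
        {x : ℤ → Cell | ((x (-1 - n)).2.2.2.2 ^^
          acc (fun k => (x (-1 - k)).2.2.2.1) n) = true})) := by
    ext x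
    simp only [mem_preimage, mem_singleton_iff, AL, decide_eq_true_eq, mem_iUnion, mem_inter_iff,
      mem_iInter]
    exact Iff.rfl
  rw [e]
  refine MeasurableSet.iUnion fun n => (measurable_site _ (fun c => c.1)
    (measurableSet_singleton true)).inter (MeasurableSet.inter
      (MeasurableSet.iInter fun k => ?_) ?_)
  · by_cases hk : k < n
    · simp only [hk, true_imp_iff]
      exact measurable_site _ (fun c => c.1) (measurableSet_singleton false)
    · simp [hk]
  · have h1 := (measurable_site (-1 - n) (fun c => c.2.2.2.2)).prodMk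
      (measurable_acc (fun k x => (x (-1 - k)).2.2.2.1)
        (fun k => measurable_site _ (fun c => c.2.2.2.1)) n)
    exact ((measurable_of_countable (fun r : Bool × Bool => r.1 ^^ r.2)).comp h1)
      (measurableSet_singleton true)

lemma measurable_BE : Measurable BE := by
  refine measurable_to_bool ?_
  have e : BE ⁻¹' {true} = ⋃ n : ℕ, ({x : ℤ → Cell | (x n).1 = true} ∩
      ((⋂ k : ℕ, {x : ℤ → Cell | k < n → (x k).1 = false}) ∩
        {x : ℤ → Cell | acc (fun k => (x k).2.2.2.1) (n + 1) = true})) := by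
    ext x
    simp only [mem_preimage, mem_singleton_iff, BE, decide_eq_true_eq, mem_iUnion, mem_inter_iff,
      mem_iInter]
    exact Iff.rfl
  rw [e]
  refine MeasurableSet.iUnion fun n => (measurable_site _ (fun c => c.1)
    (measurableSet_singleton true)).inter (MeasurableSet.inter
      (MeasurableSet.iInter fun k => ?_) ?_)
  · by_cases hk : k < n
    · simp only [hk, true_imp_iff]
      exact measurable_site _ (fun c => c.1) (measurableSet_singleton false)
    · simp [hk]
  · exact (measurable_acc (fun k x => (x k).2.2.2.1)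
      (fun k => measurable_site _ (fun c => c.2.2.2.1)) (n + 1)) (measurableSet_singleton true)

lemma measurable_al (j : ℕ) : Measurable (al j) :=
  measurable_sg.comp (measurable_AL.comp (by fun_prop))

lemma measurable_be (j : ℕ) : Measurable (be j) :=
  measurable_sg.comp (measurable_BE.comp (by fun_prop))

lemma al_pm (j : ℕ) (x : ℤ → ℕ → Cell) : al j x = 1 ∨ al j x = -1 := by
  unfold al; cases AL (fun l => x l j) <;> simp

lemma be_pm (j : ℕ) (x : ℤ → ℕ → Cell) : be j x = 1 ∨ be j x = -1 := by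
  unfold be; cases BE (fun l => x l j) <;> simp

lemma al_local (j : ℕ) (x x' : ℤ → ℕ → Cell) (h : ∀ k : ℕ, x (-1 - k) = x' (-1 - k)) :
    al j x = al j x' := by
  unfold al
  rw [AL_congr (fun l => x l j) (fun l => x' l j) fun k => by simp only [h k]]

lemma be_local (j : ℕ) (x x' : ℤ → ℕ → Cell) (h : ∀ k : ℕ, x k = x' k) :
    be j x = be j x' := by
  unfold be
  rw [BE_congr (fun l => x l j) (fun l => x' l j) fun k => by simp only [h k]]

lemma xf_local (j m : ℕ) (x x' : ℤ → ℕ → Cell)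
    (h : ∀ k : ℕ, x (-(2 * m) - 1 - k) = x' (-(2 * m) - 1 - k)) : xf j m x = xf j m x' := by
  unfold xf
  refine HH_congr _ _ _ fun k hk => ?_
  have := h (-(2 * m) - 1 - k).toNat
  rw [show -(2 * (m : ℤ)) - 1 - ((-(2 * m) - 1 - k).toNat : ℤ) = k by omega] at this
  unfold typ
  rw [this]

lemma yf_local (j m : ℕ) (x x' : ℤ → ℕ → Cell)
    (h : ∀ k : ℕ, x (2 * m + 1 + k) = x' (2 * m + 1 + k)) : yf j m x = yf j m x' := by
  unfold yf
  refine YY_congr _ _ _ fun k hk => ?_
  have := h (k - (2 * m + 1)).toNat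
  rw [show (2 * (m : ℤ)) + 1 + ((k - (2 * m + 1)).toNat : ℤ) = k by omega] at this
  unfold typ
  rw [this]

lemma typ_fst_preserving (j : ℕ) :
    MeasurePreserving (fun p : (ℤ → ℕ → Ty) × (ℤ → ℕ → Bool) => evj j p.1) B
      (iid (tyM j) ℤ) :=
  (evj_preserving j).comp measurePreserving_fst

lemma xf_half (j m : ℕ) (c : Bool) : mu {x | xf j m x = c} ≤ 1 / 2 := by
  unfold mu
  have hms : MeasurableSet {x | xf j m x = c} := (measurable_xf j m) (measurableSet_singleton c)
  rw [Measure.map_apply measurable_Phi hms]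
  have e : Phi ⁻¹' {x | xf j m x = c} =
      (fun p : (ℤ → ℕ → Ty) × (ℤ → ℕ → Bool) => evj j p.1) ⁻¹' {τ | HH τ (-(2 * m)) = c} := rfl
  have hms2 : MeasurableSet {τ : ℤ → Ty | HH τ (-(2 * m)) = c} :=
    (measurable_HH _) (measurableSet_singleton c)
  rw [e, (typ_fst_preserving j).measure_preimage hms2.nullMeasurableSet]
  exact HH_half j _ c

lemma yf_half (j m : ℕ) (c : Bool) : mu {x | yf j m x = c} ≤ 1 / 2 := by
  unfold mu
  have hms : MeasurableSet {x | yf j m x = c} := (measurable_yf j m) (measurableSet_singleton c)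
  rw [Measure.map_apply measurable_Phi hms]
  have e : Phi ⁻¹' {x | yf j m x = c} =
      (fun p : (ℤ → ℕ → Ty) × (ℤ → ℕ → Bool) => evj j p.1) ⁻¹' {τ | YY τ (2 * m + 1) = c} := rfl
  have hms2 : MeasurableSet {τ : ℤ → Ty | YY τ (2 * m + 1) = c} :=
    (measurable_YY _) (measurableSet_singleton c)
  rw [e, (typ_fst_preserving j).measure_preimage hms2.nullMeasurableSet]
  exact YY_half j _ c

/-- The bad event for the types: a cut near the origin, or no cut on one side. -/
def Bad (m : ℕ) : Set (ℤ → Ty) :=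
  ((⋃ k ∈ Finset.Icc (-(2 * m : ℤ)) (2 * m), {τ | (τ k).1 = true}) ∪
    {τ | ∀ k : ℕ, (τ (-1 - k)).1 = false}) ∪ {τ | ∀ k : ℕ, (τ k).1 = false}

lemma measure_Bad (j m : ℕ) :
    (iid (tyM j) ℤ) (Bad m) ≤ (4 * m + 1 : ℕ) * ((j : ℝ≥0∞) + 2)⁻¹ := by
  unfold Bad
  refine (measure_union_le _ _).trans ?_
  rw [no_cut_null j (fun k => k) (fun a b h => by
      have : (a : ℤ) = b := h
      exact_mod_cast this), add_zero]
  refine (measure_union_le _ _).trans ?_
  rw [no_cut_null j (fun k => -1 - k) (fun a c h => by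
      have : -1 - (a : ℤ) = -1 - c := h
      omega), add_zero]
  refine (measure_biUnion_finset_le _ _).trans ?_
  simp only [site_cut, Finset.sum_const, Int.card_Icc, nsmul_eq_mul]
  gcongr
  omega

lemma win_of_not_bad (j m : ℕ) (p : (ℤ → ℕ → Ty) × (ℤ → ℕ → Bool))
    (h : evj j p.1 ∉ Bad m) :
    al j (Phi p) * be j (Phi p) = sg (xf j m (Phi p) && yf j m (Phi p)) := by
  set τ := evj j p.1 with hτ
  set g : ℤ → Bool := fun l => p.2 l j with hg
  simp only [Bad, mem_union, mem_iUnion, mem_setOf_eq, not_or, not_exists] at h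
  obtain ⟨⟨h1, h2⟩, h3⟩ := h
  push Not at h2 h3
  have h1' : ∀ k : ℤ, -(2 * m : ℤ) ≤ k → k ≤ 2 * m → (τ k).1 = false := by
    intro k hk1 hk2
    have := h1 k (Finset.mem_Icc.2 ⟨hk1, hk2⟩)
    simpa using this
  have hal : al j (Phi p) = sg (g 0) := by
    have := AL_cell τ g (by obtain ⟨k, hk⟩ := h2; exact ⟨k, by simpa using hk⟩)
    unfold al
    rw [← this]; rfl
  have hbe : be j (Phi p) = sg (g 0) * sg (HH τ 0 && YY τ 0) := by
    have := BE_cell τ g (by obtain ⟨k, hk⟩ := h3; exact ⟨k, by simpa using hk⟩)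
    rw [← sg_xor, ← this]; rfl
  have hx : HH τ 0 = xf j m (Phi p) := by
    have := HH_eq τ (-(2 * m)) (2 * m) (fun k hk => h1' _ (by omega) (by omega))
    have e : -(2 * (m : ℤ)) + ((2 * m : ℕ) : ℤ) = 0 := by push_cast; ring
    rw [e] at this
    rw [this]; rfl
  have hy : YY τ 0 = yf j m (Phi p) := by
    have := YY_eq τ 0 (2 * m + 1) (fun k hk => h1' _ (by omega) (by omega))
    have e : (0 : ℤ) + ((2 * m + 1 : ℕ) : ℤ) = 2 * m + 1 := by push_cast; ring
    rw [e] at this
    rw [this]; rfl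
  rw [hal, hbe, ← mul_assoc, sg_mul_self, one_mul, hx, hy]

lemma mu_lose (j m : ℕ) :
    mu {x | al j x * be j x ≠ sg (xf j m x && yf j m x)} ≤
      (4 * m + 1 : ℕ) * ((j : ℝ≥0∞) + 2)⁻¹ := by
  have hm : MeasurableSet {x | al j x * be j x ≠ sg (xf j m x && yf j m x)} := by
    have m2 : Measurable (fun x => sg (xf j m x && yf j m x)) :=
      (measurable_of_countable (fun q : Bool × Bool => sg (q.1 && q.2))).comp
      ((measurable_xf j m).prodMk (measurable_yf j m))
    exact (measurableSet_eq_fun ((measurable_al j).mul (measurable_be j)) m2).compl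
  unfold mu
  rw [Measure.map_apply measurable_Phi hm]
  calc B (Phi ⁻¹' {x | al j x * be j x ≠ sg (xf j m x && yf j m x)})
      ≤ B ((fun p : (ℤ → ℕ → Ty) × (ℤ → ℕ → Bool) => evj j p.1) ⁻¹' (Bad m)) := by
        refine measure_mono fun p hp => ?_
        by_contra hcon
        exact hp (win_of_not_bad j m p hcon)
    _ ≤ (iid (tyM j) ℤ) (Bad m) := by
        rw [(typ_fst_preserving j).measure_preimage]
        have hc : ∀ (k : ℤ) (c : Bool), MeasurableSet {τ : ℤ → Ty | (τ k).1 = c} := fun k c =>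
          measurableSet_site k (fun t => t.1) c
        have ha : ∀ f : ℕ → ℤ, MeasurableSet {τ : ℤ → Ty | ∀ k : ℕ, (τ (f k)).1 = false} := by
          intro f
          have e : {τ : ℤ → Ty | ∀ k : ℕ, (τ (f k)).1 = false} =
            ⋂ k, {τ : ℤ → Ty | (τ (f k)).1 = false} := by ext; simp
          rw [e]; exact MeasurableSet.iInter fun k => hc _ _
        exact ((((Finset.measurableSet_biUnion _ fun k _ => hc k true).union
          (ha fun k => -1 - k)).union (ha fun k => k))).nullMeasurableSet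
    _ ≤ _ := measure_Bad j m

end Pool.Agent.Lib.MP_ba6fcf_pr
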